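import Pool.Agent.helper8.M4.CLP

/-!
# Project M4 (MP_1b8d20, S03975), block I: LEMMA 1: condition (I) is inherited (helper8)
-/

set_option autoImplicit false

namespace Pool.Agent.M4

open Complex ComplexConjugate Filter Topology

/-- the real inequality behind LEMMA 1. -/
theorem ADM_alg {a b cg sg cb sb : ℝ} (hsg : 0 < sg) (hsb : 0 < sb) (hcg : 0 ≤ cg) (hcb : 0 < cb) (h1 : a < 2 * sg)
    (hD : 4 * (cg ^ 2 + sg ^ 2) - a ^ 2 = 4 * (cb ^ 2 + sb ^ 2) - b ^ 2) (hid : 0 < cg * a * sb + cb * b * sg) : -(2 * sb) < b := by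
  by_contra hcon
  push Not at hcon
  have h2 : 2 * sb ≤ -b := by linarith
  have h3 : 2 * (cb * sg) * sb ≤ cb * sg * (-b) := by
    have := mul_le_mul_of_nonneg_left h2 (mul_pos hcb hsg).le
    linarith
  have h4 : 2 * (cb * sg) * sb < cg * a * sb := by linarith
  have h5 : 2 * (cb * sg) < cg * a := lt_of_mul_lt_mul_right h4 hsb.le
  have h6 : 0 < cg * a := lt_trans (by positivity) h5
  have ha : 0 < a := by
    by_contra h
    push Not at h
    have := mul_nonpos_of_nonneg_of_nonpos hcg h
    linarith
  have h7 : cg * a ≤ cg * (2 * sg) := mul_le_mul_of_nonneg_left h1.le hcg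
  have h8 : cb * sg < cg * sg := by linarith
  have h9 : cb < cg := lt_of_mul_lt_mul_right h8 hsg.le
  have h10 : a ^ 2 < (2 * sg) ^ 2 := by
    apply pow_lt_pow_left₀ h1 ha.le two_ne_zero
  have h11 : (2 * sb) ^ 2 ≤ b ^ 2 := by
    have : (2 * sb) ^ 2 ≤ (-b) ^ 2 := pow_le_pow_left₀ (by positivity) h2 2
    linarith [neg_sq b]
  have h12 : cb ^ 2 < cg ^ 2 := pow_lt_pow_left₀ h9 hcb.le two_ne_zero
  nlinarith

/-- the first identity of the page. -/
theorem ADM_id {L N R : ℂ} (h : Mk L N R) :
    (L * conj N).im * (normSq N - normSq L) + (L * N * conj R ^ 2).im = - (normSq L * normSq N * R.im) := by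
  have h1 : conj L ^ 2 + conj N ^ 2 + conj R ^ 2 = conj L * conj N * conj R := by
    have := congrArg (starRingEnd ℂ) h
    simpa only [map_add, map_pow, map_mul] using this
  have h2 : L * N * (conj L ^ 2 + conj N ^ 2 + conj R ^ 2) = L * N * (conj L * conj N * conj R) := by rw [h1]
  have h3 := congrArg Complex.im h2
  simp only [normSq_apply, pow_two, mul_im, mul_re, add_re, add_im, conj_re, conj_im] at h3 ⊢
  linarith

/-- LEMMA 1, left version. -/
theorem ADM_L {L N R : ℂ} (h : Adm L N R) (hm : Mk L N R) (g : GoL L N R) : Adm N (N * R - L) R := by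
  have hNR : 0 < (N * conj R).im := GoL_im h g
  have hL0 := h.L0
  have hreN : 0 < N.re := by
    have h1 := h.reR
    have h2 := h.imR
    have h3 := g.im
    have h4 := g.re
    simp only [mul_re, conj_re, conj_im] at h4
    by_contra hcon
    push Not at hcon
    have h6 : N.re * R.re ≤ 0 := mul_nonpos_of_nonpos_of_nonneg hcon h1.le
    have h7 : N.im * R.im < 0 := mul_neg_of_pos_of_neg h3 h2
    linarith
  -- the angle of L and R
  have hLR : 0 < (L * conj R).im := by
    have h1 := h.reL
    have h2 := h.imL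
    have h3 := h.reR
    have h4 := h.imR
    simp only [mul_im, conj_re, conj_im]
    have h5 := mul_pos h2 h3
    have h6 : L.re * R.im < 0 := mul_neg_of_pos_of_neg h1 h4
    linarith
  have sub_sq1 : ∀ X Y : ℂ, ‖X - I * Y‖ ^ 2 = normSq X + normSq Y - 2 * (X * conj Y).im := by
    intro X Y
    rw [Complex.sq_norm, normSq_apply, normSq_apply, normSq_apply]
    simp only [sub_re, sub_im, mul_re, mul_im, I_re, I_im, conj_re, conj_im]
    ring
  have add_sq1 : ∀ X Y : ℂ, ‖X + I * Y‖ ^ 2 = normSq X + normSq Y + 2 * (X * conj Y).im := by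
    intro X Y
    rw [Complex.sq_norm, normSq_apply, normSq_apply, normSq_apply]
    simp only [add_re, add_im, mul_re, mul_im, I_re, I_im, conj_re, conj_im]
    ring
  -- the key inequality
  have key : ‖L‖ < ‖N + I * R‖ := by
    rw [← pow_lt_pow_iff_left₀ (norm_nonneg _) (norm_nonneg _) two_ne_zero, add_sq1, Complex.sq_norm]
    have h1 : normSq L + normSq R - normSq N < 2 * (L * conj R).im := by
      have := (pow_lt_pow_iff_left₀ (norm_nonneg _) (norm_nonneg _) two_ne_zero).2 h.lo
      rw [sub_sq1, Complex.sq_norm] at this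
      linarith
    have hD : 4 * ((L * conj R).re ^ 2 + (L * conj R).im ^ 2) - (normSq L + normSq R - normSq N) ^ 2 =
        4 * ((N * conj R).re ^ 2 + (N * conj R).im ^ 2) - (normSq N + normSq R - normSq L) ^ 2 := by
      simp only [normSq_apply, mul_im, mul_re, conj_re, conj_im]
      ring
    have hid : 0 < (L * conj R).re * (normSq L + normSq R - normSq N) * (N * conj R).im +
        (N * conj R).re * (normSq N + normSq R - normSq L) * (L * conj R).im := by
      have e : (L * conj R).re * (normSq L + normSq R - normSq N) * (N * conj R).im +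
        (N * conj R).re * (normSq N + normSq R - normSq L) * (L * conj R).im =
        normSq R * ((L * conj N).im * (normSq N - normSq L) + (L * N * conj R ^ 2).im) := by
        simp only [normSq_apply, pow_two, mul_im, mul_re, conj_re, conj_im]
        ring
      rw [e, ADM_id hm]
      have h2 : 0 < normSq L := normSq_pos.2 hL0
      have h3 : 0 < normSq N := normSq_pos.2 h.N0
      have h4 : 0 < normSq R := normSq_pos.2 h.R0
      have h5 : 0 < normSq L * normSq N * (-R.im) := mul_pos (mul_pos h2 h3) (by linarith [h.imR])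
      have h6 := mul_pos h4 h5
      linarith
    have := ADM_alg hLR hNR h.gam g.re h1 hD hid
    linarith
  have hprod : ‖L‖ * ‖N * R - L‖ = ‖N - I * R‖ * ‖N + I * R‖ := by
    rw [← norm_mul, ← norm_mul]
    congr 1
    unfold Mk at hm
    linear_combination -hm + R ^ 2 * I_sq
  have hl : 0 < ‖L‖ := norm_pos_iff.2 hL0
  have hlt := g.lt
  refine ⟨hreN, g.im, h.reR, h.imR, g.re.le, ?_, ?_⟩
  · have h1 : ‖N - I * R‖ * ‖L‖ < ‖N * R - L‖ * ‖L‖ := by
      rw [mul_comm ‖N * R - L‖, hprod]
      have h2 : 0 < ‖N - I * R‖ := by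
        rw [norm_pos_iff]
        intro h3
        have h4 : N = I * R := by linear_combination h3
        have h5 := g.re
        rw [h4] at h5
        simp only [mul_re, mul_im, I_re, I_im, conj_re, conj_im] at h5
        ring_nf at h5
        exact lt_irrefl _ h5
      exact mul_lt_mul_of_pos_left key h2
    exact lt_of_mul_lt_mul_right h1 hl.le
  · have h1 : ‖N * R - L‖ * ‖L‖ < ‖N + I * R‖ * ‖L‖ := by
      rw [mul_comm ‖N * R - L‖, hprod, mul_comm ‖N - I * R‖]
      exact mul_lt_mul_of_pos_left hlt (hl.trans key)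
    exact lt_of_mul_lt_mul_right h1 hl.le

theorem Adm_conj {L N R : ℂ} (h : Adm L N R) : Adm (conj R) (conj N) (conj L) := by
  have e1 : ‖conj R - I * conj L‖ = ‖L - I * R‖ := by
    have : conj R - I * conj L = conj (I * (L - I * R)) := by
      simp only [map_mul, map_sub, conj_I]
      linear_combination (conj R) * I_sq
    rw [this, Complex.norm_conj, norm_mul, norm_I, one_mul]
  have e2 : ‖conj R + I * conj L‖ = ‖L + I * R‖ := by
    have : conj R + I * conj L = conj (-I * (L + I * R)) := by
      simp only [map_mul, map_add, map_neg, conj_I]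
      linear_combination (conj R) * I_sq
    rw [this, Complex.norm_conj, norm_mul, norm_neg, norm_I, one_mul]
  refine ⟨?_, ?_, ?_, ?_, ?_, ?_, ?_⟩
  · rw [conj_re]; exact h.reR
  · rw [conj_im]; linarith [h.imR]
  · rw [conj_re]; exact h.reL
  · rw [conj_im]; linarith [h.imL]
  · have := h.gam
    simp only [mul_re, conj_re, conj_im] at this ⊢
    linarith
  · rw [e1, Complex.norm_conj]; exact h.lo
  · rw [e2, Complex.norm_conj]; exact h.hi

theorem GoR_conj {L N R : ℂ} (g : GoR L N R) : GoL (conj R) (conj N) (conj L) := by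
  have e1 : ‖conj N - I * conj L‖ = ‖L - I * N‖ := by
    have : conj N - I * conj L = conj (I * (L - I * N)) := by
      simp only [map_mul, map_sub, conj_I]
      linear_combination (conj N) * I_sq
    rw [this, Complex.norm_conj, norm_mul, norm_I, one_mul]
  refine ⟨?_, ?_, ?_⟩
  · rw [conj_im]; linarith [g.im]
  · have := g.re
    simp only [mul_re, conj_re, conj_im] at this ⊢
    linarith
  · rw [e1, Complex.norm_conj]; exact g.lt

theorem Mk_conj {L N R : ℂ} (h : Mk L N R) : Mk (conj R) (conj N) (conj L) := by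
  have h1 : conj L ^ 2 + conj N ^ 2 + conj R ^ 2 = conj L * conj N * conj R := by
    have := congrArg (starRingEnd ℂ) h
    simpa only [map_add, map_pow, map_mul] using this
  unfold Mk
  linear_combination h1

/-- LEMMA 1, right version. -/
theorem ADM_R {L N R : ℂ} (h : Adm L N R) (hm : Mk L N R) (g : GoR L N R) : Adm L (L * N - R) N := by
  have h1 := ADM_L (Adm_conj h) (Mk_conj hm) (GoR_conj g)
  have h2 := Adm_conj h1
  simp only [map_sub, map_mul, Complex.conj_conj] at h2
  rw [mul_comm L N]
  exact h2

/-- **ADM**: condition (I) holds along the algorithm. -/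
theorem ADM : ∀ (w : List Bool) (z : ℂ), Ch w z → Adm (Lf w z) (Nf w z) (Rf w z) := by
  intro w
  induction w with
  | nil => exact fun z hz => Adm_root hz.1 hz.2
  | cons b w ih =>
    intro z hz
    obtain ⟨hw, hgo⟩ := hz
    cases b with
    | true => exact ADM_L (ih z hw) (Mk_Tr w z) hgo
    | false => exact ADM_R (ih z hw) (Mk_Tr w z) hgo

end Pool.Agent.M4
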