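import Mathlib

/-!
# Project m4: (MP_1b8d20_an, S03975), block IVb: the Jacobian of the angles (pure part; helper8)

`L, N, R` are three complex numbers (functions of `z`), the triangle with the sides `‖L‖, ‖N‖, ‖R‖` is strict. `thL = π/2 - A_L - arg (N/R)`, `thR = π/2 - A_R - arg (L/N)`.
-/

set_option autoImplicit false

open Complex Metric Set Filter Topology

noncomputable section

namespace M4J

/-- sixteen times the square of the area. -/
def DD (l n r : ℝ) : ℝ := 4 * n ^ 2 * r ^ 2 - (n ^ 2 + r ^ 2 - l ^ 2) ^ 2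

/-- the angle opposite to the side `l`. -/
def aA (l n r : ℝ) : ℝ := Real.arccos ((n ^ 2 + r ^ 2 - l ^ 2) / (2 * n * r))

/-- `θ_L`. -/
def thL (L N R : ℂ) : ℝ := Real.pi / 2 - aA ‖L‖ ‖N‖ ‖R‖ - arg (N / R)

/-- `θ_R`. -/
def thR (L N R : ℂ) : ℝ := Real.pi / 2 - aA ‖R‖ ‖N‖ ‖L‖ - arg (L / N)

theorem DD_pos {l n r : ℝ} (h0 : 0 < l) (h1 : n < l + r) (h2 : l < n + r) (h3 : r < l + n) : 0 < DD l n r := by
  have e : DD l n r = (l + n + r) * (n + r - l) * (l + r - n) * (l + n - r) := by unfold DD; ring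
  rw [e]
  have h4 : 0 < l + n + r := by linarith
  have h5 : 0 < n + r - l := by linarith
  have h6 : 0 < l + r - n := by linarith
  have h7 : 0 < l + n - r := by linarith
  positivity

theorem DD_symm (l n r : ℝ) : DD r n l = DD l n r := by unfold DD; ring

/-- the complex identity for the Jacobian. -/
theorem JAC_id (a b c : ℝ) (u w : ℂ) (h : a * b + b * c + c * a = 1) :
    ((-((b : ℂ) + c) * u + (I - b) * w) * (starRingEnd ℂ) (((a : ℂ) + b) * w + (b + I) * u)).im =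
      c * ‖u‖ ^ 2 + a * ‖w‖ ^ 2 + b * ‖u + w‖ ^ 2 - 2 * (u * (starRingEnd ℂ) w).im := by
  rw [Complex.sq_norm, Complex.sq_norm, Complex.sq_norm, normSq_apply, normSq_apply, normSq_apply]
  simp only [mul_im, mul_re, add_re, add_im, neg_re, neg_im, sub_re, sub_im, ofReal_re, ofReal_im, I_re, I_im, conj_re, conj_im]
  have h' : a * b + b * c + c * a - 1 = 0 := by linarith
  linear_combination (u.re * w.im - u.im * w.re) * h'

/-- the quadratic form dominates twice the signed area. -/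
theorem JAC_form {a b c : ℝ} (h : a * b + b * c + c * a = 1) (hbc : 0 < b + c) (u w : ℂ) :
    2 * |(u * (starRingEnd ℂ) w).im| ≤ c * ‖u‖ ^ 2 + a * ‖w‖ ^ 2 + b * ‖u + w‖ ^ 2 := by
  have key : ∀ s : ℝ, s = 1 ∨ s = -1 → 2 * (s * (u * (starRingEnd ℂ) w).im) ≤ c * ‖u‖ ^ 2 + a * ‖w‖ ^ 2 + b * ‖u + w‖ ^ 2 := by
    intro s hs
    have hs2 : s ^ 2 = 1 := by rcases hs with rfl | rfl <;> norm_num
    rw [Complex.sq_norm, Complex.sq_norm, Complex.sq_norm, normSq_apply, normSq_apply, normSq_apply]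
    simp only [mul_im, add_re, add_im, conj_re, conj_im]
    -- multiply by b + c
    have h1 : 0 ≤ (b + c) * (c * (u.re * u.re + u.im * u.im) + a * (w.re * w.re + w.im * w.im) +
        b * ((u.re + w.re) * (u.re + w.re) + (u.im + w.im) * (u.im + w.im)) - 2 * (s * (u.re * -w.im + u.im * w.re))) := by
      have e : (b + c) * (c * (u.re * u.re + u.im * u.im) + a * (w.re * w.re + w.im * w.im) +
        b * ((u.re + w.re) * (u.re + w.re) + (u.im + w.im) * (u.im + w.im)) - 2 * (s * (u.re * -w.im + u.im * w.re))) =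
        ((b + c) * u.re + b * w.re + s * w.im) ^ 2 + ((b + c) * u.im + b * w.im - s * w.re) ^ 2 := by
        linear_combination (w.re * w.re + w.im * w.im) * h - (w.re * w.re + w.im * w.im) * hs2
      rw [e]; positivity
    have h2 := nonneg_of_mul_nonneg_right h1 hbc
    linarith
  have h1 := key 1 (Or.inl rfl)
  have h2 := key (-1) (Or.inr rfl)
  rcases abs_cases (u * (starRingEnd ℂ) w).im with ⟨h3, -⟩ | ⟨h3, -⟩ <;> rw [h3] <;> linarith

/-- strict positivity of the quadratic form. -/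
theorem JAC_pos {a b c : ℝ} (h : a * b + b * c + c * a = 1) (hbc : 0 < b + c) {u w : ℂ} (hne : ¬ (u = 0 ∧ w = 0)) :
    0 < c * ‖u‖ ^ 2 + a * ‖w‖ ^ 2 + b * ‖u + w‖ ^ 2 := by
  rw [Complex.sq_norm, Complex.sq_norm, Complex.sq_norm, normSq_apply, normSq_apply, normSq_apply]
  simp only [add_re, add_im]
  have e : (b + c) * (c * (u.re * u.re + u.im * u.im) + a * (w.re * w.re + w.im * w.im) +
        b * ((u.re + w.re) * (u.re + w.re) + (u.im + w.im) * (u.im + w.im))) =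
        ((b + c) * u.re + b * w.re) ^ 2 + ((b + c) * u.im + b * w.im) ^ 2 + (w.re ^ 2 + w.im ^ 2) := by
    linear_combination (w.re * w.re + w.im * w.im) * h
  have h1 : 0 < (b + c) * (c * (u.re * u.re + u.im * u.im) + a * (w.re * w.re + w.im * w.im) +
        b * ((u.re + w.re) * (u.re + w.re) + (u.im + w.im) * (u.im + w.im))) := by
    rw [e]
    by_contra hcon
    push Not at hcon
    have h2 := sq_nonneg ((b + c) * u.re + b * w.re)
    have h3 := sq_nonneg ((b + c) * u.im + b * w.im)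
    have h4 := sq_nonneg w.re
    have h5 := sq_nonneg w.im
    have hw1 : w.re = 0 := by
      have : w.re ^ 2 = 0 := by linarith
      exact pow_eq_zero_iff (two_ne_zero) |>.1 this
    have hw2 : w.im = 0 := by
      have : w.im ^ 2 = 0 := by linarith
      exact pow_eq_zero_iff (two_ne_zero) |>.1 this
    have hu1 : (b + c) * u.re + b * w.re = 0 := by
      have : ((b + c) * u.re + b * w.re) ^ 2 = 0 := by linarith
      exact pow_eq_zero_iff (two_ne_zero) |>.1 this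
    have hu2 : (b + c) * u.im + b * w.im = 0 := by
      have : ((b + c) * u.im + b * w.im) ^ 2 = 0 := by linarith
      exact pow_eq_zero_iff (two_ne_zero) |>.1 this
    rw [hw1, mul_zero, add_zero] at hu1
    rw [hw2, mul_zero, add_zero] at hu2
    apply hne
    refine ⟨?_, ?_⟩
    · apply Complex.ext
      · exact (mul_eq_zero.1 hu1).resolve_left hbc.ne'
      · exact (mul_eq_zero.1 hu2).resolve_left hbc.ne'
    · exact Complex.ext hw1 hw2
  exact (mul_pos_iff_of_pos_left hbc).1 h1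

/-- the Jacobian is positive if the signed area `Om` is nonnegative. -/
theorem JAC_jac {a b c : ℝ} (h : a * b + b * c + c * a = 1) (hbc : 0 < b + c) {u w : ℂ} (hne : ¬ (u = 0 ∧ w = 0))
    (hom : (u * (starRingEnd ℂ) w).im ≤ 0) :
    0 < ((-((b : ℂ) + c) * u + (I - b) * w) * (starRingEnd ℂ) (((a : ℂ) + b) * w + (b + I) * u)).im := by
  rw [JAC_id a b c u w h]
  have := JAC_pos h hbc hne
  linarith

/-- the direction. -/
theorem JAC_dir {P Q : ℂ} (h : 0 < (P * (starRingEnd ℂ) Q).im) : ∃ v : ℂ, (P * v).re = 1 ∧ (Q * v).re = 1 := by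
  have h' : (P * (starRingEnd ℂ) Q).im = P.im * Q.re - P.re * Q.im := by
    simp only [mul_im, conj_re, conj_im]; ring
  rw [h'] at h
  refine ⟨I * (starRingEnd ℂ) (P - Q) / ((P.im * Q.re - P.re * Q.im : ℝ) : ℂ), ?_, ?_⟩
  · rw [mul_div_assoc', Complex.div_ofReal_re, div_eq_one_iff_eq h.ne']
    simp only [mul_im, mul_re, sub_re, sub_im, I_re, I_im, conj_re, conj_im]
    ring
  · rw [mul_div_assoc', Complex.div_ofReal_re, div_eq_one_iff_eq h.ne']
    simp only [mul_im, mul_re, sub_re, sub_im, I_re, I_im, conj_re, conj_im]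
    ring

/-- the derivative of the norm along a curve. -/
theorem JAC_norm {X : ℝ → ℂ} {X' : ℂ} {t : ℝ} (h : HasDerivAt X X' t) (h0 : X t ≠ 0) :
    HasDerivAt (fun s => ‖X s‖) (‖X t‖ * (X' / X t).re) t := by
  have h1 : HasDerivAt (fun s => ‖X s‖ ^ 2) (2 * (X t).re * X'.re + 2 * (X t).im * X'.im) t := by
    have hre : HasDerivAt (fun s => (X s).re) X'.re t :=
      (Complex.reCLM.hasFDerivAt (x := X t)).comp_hasDerivAt t h
    have him : HasDerivAt (fun s => (X s).im) X'.im t :=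
      (Complex.imCLM.hasFDerivAt (x := X t)).comp_hasDerivAt t h
    have e : (fun s => ‖X s‖ ^ 2) = fun s => (X s).re * (X s).re + (X s).im * (X s).im := by
      funext s; rw [Complex.sq_norm, normSq_apply]
    rw [e]
    exact ((hre.mul hre).add (him.mul him)).congr_deriv (by ring)
  have h2 : HasDerivAt (fun s => Real.sqrt (‖X s‖ ^ 2)) ((2 * (X t).re * X'.re + 2 * (X t).im * X'.im) / (2 * Real.sqrt (‖X t‖ ^ 2))) t :=
    h1.sqrt (pow_ne_zero 2 (norm_ne_zero_iff.2 h0))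
  have e2 : (fun s => Real.sqrt (‖X s‖ ^ 2)) = fun s => ‖X s‖ := by
    funext s; exact Real.sqrt_sq (norm_nonneg _)
  rw [e2, Real.sqrt_sq (norm_nonneg _)] at h2
  refine h2.congr_deriv ?_
  have hn : ‖X t‖ ≠ 0 := norm_ne_zero_iff.2 h0
  have hns : normSq (X t) = ‖X t‖ ^ 2 := (Complex.sq_norm _).symm
  rw [Complex.div_re, hns]
  field_simp

/-- the derivative of the argument of a quotient along a curve. -/
theorem JAC_arg {X Y : ℝ → ℂ} {X' Y' : ℂ} {t : ℝ} (hX : HasDerivAt X X' t) (hY : HasDerivAt Y Y' t) (h0 : X t ≠ 0) (h1 : Y t ≠ 0)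
    (hs : X t / Y t ∈ slitPlane) :
    HasDerivAt (fun s => arg (X s / Y s)) ((X' / X t - Y' / Y t).im) t := by
  have h2 : HasDerivAt (fun s => Complex.log (X s / Y s)) ((X' * Y t - X t * Y') / Y t ^ 2 / (X t / Y t)) t :=
    (hX.div hY h1).clog_real hs
  have h3 : HasDerivAt (fun s => (Complex.log (X s / Y s)).im) ((X' * Y t - X t * Y') / Y t ^ 2 / (X t / Y t)).im t := by
    have h4 : HasDerivAt (fun z : ℝ => (Complex.log (X z / Y z)).im) (Complex.imCLM ((X' * Y t - X t * Y') / Y t ^ 2 / (X t / Y t))) t :=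
      HasFDerivAt.comp_hasDerivAt (f := fun s => Complex.log (X s / Y s)) t Complex.imCLM.hasFDerivAt h2
    exact h4
  have e : (fun s => (Complex.log (X s / Y s)).im) = fun s => arg (X s / Y s) := by
    funext s; exact Complex.log_im _
  rw [e] at h3
  refine h3.congr_deriv ?_
  congr 1
  field_simp

/-- the derivative of an angle of a triangle with moving sides (`l' = l a`, `n' = n b`, `r' = r c`). -/
theorem JAC_ang {l n r : ℝ → ℝ} {a b c t : ℝ} (hl : HasDerivAt l (l t * a) t) (hn : HasDerivAt n (n t * b) t) (hr : HasDerivAt r (r t * c) t)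
    (hn0 : 0 < n t) (hr0 : 0 < r t) (hD : 0 < DD (l t) (n t) (r t)) :
    HasDerivAt (fun s => aA (l s) (n s) (r s))
      ((l t ^ 2 + n t ^ 2 - r t ^ 2) / Real.sqrt (DD (l t) (n t) (r t)) * (a - b) +
        (l t ^ 2 + r t ^ 2 - n t ^ 2) / Real.sqrt (DD (l t) (n t) (r t)) * (a - c)) t := by
  set S := Real.sqrt (DD (l t) (n t) (r t)) with hS
  have hS0 : 0 < S := Real.sqrt_pos.2 hD
  have hS2 : S ^ 2 = 4 * n t ^ 2 * r t ^ 2 - (n t ^ 2 + r t ^ 2 - l t ^ 2) ^ 2 := by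
    rw [hS, Real.sq_sqrt hD.le]; rfl
  have hx : HasDerivAt (fun s => (n s ^ 2 + r s ^ 2 - l s ^ 2) / (2 * n s * r s))
      (((n t ^ 2 - r t ^ 2 + l t ^ 2) * b + (r t ^ 2 - n t ^ 2 + l t ^ 2) * c - 2 * l t ^ 2 * a) / (2 * n t * r t)) t := by
    have h1 : HasDerivAt (fun s => n s ^ 2 + r s ^ 2 - l s ^ 2) (2 * n t ^ 2 * b + 2 * r t ^ 2 * c - 2 * l t ^ 2 * a) t := by
      refine (((hn.pow 2).add (hr.pow 2)).sub (hl.pow 2)).congr_deriv ?_
      simp only [Nat.add_one_sub_one, pow_one, Nat.cast_ofNat]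
      ring
    have h2 : HasDerivAt (fun s => 2 * n s * r s) (2 * n t * r t * (b + c)) t := by
      refine ((hn.const_mul 2).mul hr).congr_deriv ?_
      ring
    refine (h1.div h2 (by positivity)).congr_deriv ?_
    field_simp
    ring
  set x := (n t ^ 2 + r t ^ 2 - l t ^ 2) / (2 * n t * r t) with hxdef
  have hx2 : 1 - x ^ 2 = (S / (2 * n t * r t)) ^ 2 := by
    rw [hxdef, div_pow, div_pow, hS2]
    field_simp
    ring
  have hpos : 0 < 1 - x ^ 2 := by rw [hx2]; positivity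
  have hxne1 : x ≠ -1 := by
    intro h; rw [h] at hpos; norm_num at hpos
  have hxne2 : x ≠ 1 := by
    intro h; rw [h] at hpos; norm_num at hpos
  have hsq : Real.sqrt (1 - x ^ 2) = S / (2 * n t * r t) := by
    rw [hx2, Real.sqrt_sq (by positivity)]
  have h3 := (Real.hasDerivAt_arccos hxne1 hxne2).comp t hx
  refine h3.congr_deriv ?_
  rw [hsq]
  field_simp
  ring

/-- the three cotangents satisfy `ab + bc + ca = 1`. -/
theorem JAC_cot {l n r : ℝ} (hD : 0 < DD l n r) :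
    (n ^ 2 + r ^ 2 - l ^ 2) / Real.sqrt (DD l n r) * ((l ^ 2 + r ^ 2 - n ^ 2) / Real.sqrt (DD l n r)) +
      (l ^ 2 + r ^ 2 - n ^ 2) / Real.sqrt (DD l n r) * ((l ^ 2 + n ^ 2 - r ^ 2) / Real.sqrt (DD l n r)) +
      (l ^ 2 + n ^ 2 - r ^ 2) / Real.sqrt (DD l n r) * ((n ^ 2 + r ^ 2 - l ^ 2) / Real.sqrt (DD l n r)) = 1 := by
  have hS0 : 0 < Real.sqrt (DD l n r) := Real.sqrt_pos.2 hD
  have hS2 : Real.sqrt (DD l n r) ^ 2 = 4 * n ^ 2 * r ^ 2 - (n ^ 2 + r ^ 2 - l ^ 2) ^ 2 := by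
    rw [Real.sq_sqrt hD.le]; rfl
  field_simp
  rw [hS2]
  ring

/-- **INC**: at a point where `Om ≥ 0` and the logarithmic derivatives are not all equal there is a direction in which both angles increase. `qL, qN, qR` are the logarithmic derivatives. -/
theorem JAC_inc {L N R : ℂ → ℂ} {L' N' R' z : ℂ} (hL : HasDerivAt L L' z) (hN : HasDerivAt N N' z) (hR : HasDerivAt R R' z)
    (hL0 : L z ≠ 0) (hN0 : N z ≠ 0) (hR0 : R z ≠ 0) (hNR : 0 < (N z * (starRingEnd ℂ) (R z)).re) (hLN : 0 < (L z * (starRingEnd ℂ) (N z)).re)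
    (h1 : ‖N z‖ < ‖L z‖ + ‖R z‖) (h2 : ‖L z‖ < ‖N z‖ + ‖R z‖) (h3 : ‖R z‖ < ‖L z‖ + ‖N z‖)
    (hne : ¬ (L' / L z = N' / N z ∧ N' / N z = R' / R z))
    (hom : ((L' / L z - N' / N z) * (starRingEnd ℂ) (N' / N z - R' / R z)).im ≤ 0) :
    ∃ v : ℂ, ∃ ε > (0 : ℝ), ∀ t : ℝ, 0 < t → t < ε →
      thL (L z) (N z) (R z) < thL (L (z + t * v)) (N (z + t * v)) (R (z + t * v)) ∧
      thR (L z) (N z) (R z) < thR (L (z + t * v)) (N (z + t * v)) (R (z + t * v)) := by
  set qL := L' / L z with hqL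
  set qN := N' / N z with hqN
  set qR := R' / R z with hqR
  have hl0 : 0 < ‖L z‖ := norm_pos_iff.2 hL0
  have hn0 : 0 < ‖N z‖ := norm_pos_iff.2 hN0
  have hr0 : 0 < ‖R z‖ := norm_pos_iff.2 hR0
  have hD : 0 < DD ‖L z‖ ‖N z‖ ‖R z‖ := DD_pos hl0 h1 h2 h3
  set S := Real.sqrt (DD ‖L z‖ ‖N z‖ ‖R z‖) with hS
  have hS0 : 0 < S := Real.sqrt_pos.2 hD
  set a : ℝ := (‖N z‖ ^ 2 + ‖R z‖ ^ 2 - ‖L z‖ ^ 2) / S with ha
  set b : ℝ := (‖L z‖ ^ 2 + ‖R z‖ ^ 2 - ‖N z‖ ^ 2) / S with hb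
  set c : ℝ := (‖L z‖ ^ 2 + ‖N z‖ ^ 2 - ‖R z‖ ^ 2) / S with hc
  have habc : a * b + b * c + c * a = 1 := JAC_cot hD
  have hbc : 0 < b + c := by
    have e : b + c = 2 * ‖L z‖ ^ 2 / S := by rw [hb, hc]; ring
    rw [e]; positivity
  have hne' : ¬ (qL - qN = 0 ∧ qN - qR = 0) := by
    rintro ⟨e1, e2⟩
    exact hne ⟨sub_eq_zero.1 e1, sub_eq_zero.1 e2⟩
  have hJ := JAC_jac habc hbc hne' hom
  obtain ⟨v, hv1, hv2⟩ := JAC_dir hJ
  -- curves
  have hcurve : ∀ {X : ℂ → ℂ} {X' : ℂ}, HasDerivAt X X' z → HasDerivAt (fun t : ℝ => X (z + t * v)) (X' * v) 0 := by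
    intro X X' hX
    have h4 : HasDerivAt (fun t : ℝ => z + (t : ℂ) * v) v 0 := by
      have h5 : HasDerivAt (fun t : ℝ => (t : ℂ)) 1 0 := Complex.ofRealCLM.hasDerivAt (x := (0 : ℝ))
      simpa using (h5.mul_const v).const_add z
    have h6 : HasDerivAt X X' (z + ((0 : ℝ) : ℂ) * v) := by simpa using hX
    exact h6.comp 0 h4
  have cL := hcurve hL
  have cN := hcurve hN
  have cR := hcurve hR
  have z0 : z + ((0 : ℝ) : ℂ) * v = z := by simp
  have nL := JAC_norm cL (by rw [z0]; exact hL0)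
  have nN := JAC_norm cN (by rw [z0]; exact hN0)
  have nR := JAC_norm cR (by rw [z0]; exact hR0)
  have aL : HasDerivAt (fun t : ℝ => aA ‖L (z + t * v)‖ ‖N (z + t * v)‖ ‖R (z + t * v)‖)
      (c * ((L' * v / L z).re - (N' * v / N z).re) + b * ((L' * v / L z).re - (R' * v / R z).re)) 0 := by
    have h7 := JAC_ang nL nN nR (by rw [z0]; exact hn0) (by rw [z0]; exact hr0) (by rw [z0]; exact hD)
    rw [z0] at h7
    exact h7
  have aR : HasDerivAt (fun t : ℝ => aA ‖R (z + t * v)‖ ‖N (z + t * v)‖ ‖L (z + t * v)‖)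
      (a * ((R' * v / R z).re - (N' * v / N z).re) + b * ((R' * v / R z).re - (L' * v / L z).re)) 0 := by
    have h7 := JAC_ang nR nN nL (by rw [z0]; exact hn0) (by rw [z0]; exact hl0) (by rw [z0, DD_symm]; exact hD)
    rw [z0, DD_symm] at h7
    refine h7.congr_deriv ?_
    rw [ha, hb]
    ring
  have sNR : N (z + ((0 : ℝ) : ℂ) * v) / R (z + ((0 : ℝ) : ℂ) * v) ∈ slitPlane := by
    rw [z0]; left
    rw [div_re]
    have hns : 0 < normSq (R z) := normSq_pos.2 hR0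
    have e : (N z).re * (R z).re / normSq (R z) + (N z).im * (R z).im / normSq (R z) = (N z * (starRingEnd ℂ) (R z)).re / normSq (R z) := by
      simp only [mul_re, conj_re, conj_im]; ring
    rw [e]; exact div_pos hNR hns
  have sLN : L (z + ((0 : ℝ) : ℂ) * v) / N (z + ((0 : ℝ) : ℂ) * v) ∈ slitPlane := by
    rw [z0]; left
    rw [div_re]
    have hns : 0 < normSq (N z) := normSq_pos.2 hN0
    have e : (L z).re * (N z).re / normSq (N z) + (L z).im * (N z).im / normSq (N z) = (L z * (starRingEnd ℂ) (N z)).re / normSq (N z) := by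
      simp only [mul_re, conj_re, conj_im]; ring
    rw [e]; exact div_pos hLN hns
  have gNR := JAC_arg cN cR (by rw [z0]; exact hN0) (by rw [z0]; exact hR0) sNR
  have gLN := JAC_arg cL cN (by rw [z0]; exact hL0) (by rw [z0]; exact hN0) sLN
  rw [z0] at gNR gLN
  have e1 : ∀ X' X : ℂ, X' * v / X = X' / X * v := by intro X' X; ring
  have dL : HasDerivAt (fun t : ℝ => thL (L (z + t * v)) (N (z + t * v)) (R (z + t * v))) 1 0 := by
    have h8 := ((hasDerivAt_const (0 : ℝ) (Real.pi / 2)).sub aL).sub gNR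
    refine h8.congr_deriv ?_
    rw [← hv1, e1 L', e1 N', e1 R', ← hqL, ← hqN, ← hqR]
    simp only [mul_re, mul_im, add_re, add_im, neg_re, neg_im, sub_re, sub_im, ofReal_re, ofReal_im, I_re, I_im]
    ring
  have dR : HasDerivAt (fun t : ℝ => thR (L (z + t * v)) (N (z + t * v)) (R (z + t * v))) 1 0 := by
    have h8 := ((hasDerivAt_const (0 : ℝ) (Real.pi / 2)).sub aR).sub gLN
    refine h8.congr_deriv ?_
    rw [← hv2, e1 L', e1 N', e1 R', ← hqL, ← hqN, ← hqR]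
    simp only [mul_re, mul_im, add_re, add_im, neg_re, neg_im, sub_re, sub_im, ofReal_re, ofReal_im, I_re, I_im]
    ring
  have inc : ∀ {F : ℝ → ℝ}, HasDerivAt F 1 0 → ∃ ε > (0 : ℝ), ∀ t : ℝ, 0 < t → t < ε → F 0 < F t := by
    intro F hF
    have h9 := hasDerivAt_iff_isLittleO.1 hF
    have h10 := h9.def (show (0 : ℝ) < 1 / 2 by norm_num)
    rw [Metric.eventually_nhds_iff] at h10
    obtain ⟨ε, hε, h11⟩ := h10
    refine ⟨ε, hε, fun t ht0 ht1 => ?_⟩
    have h12 := h11 (show dist t 0 < ε by rw [Real.dist_eq, sub_zero, abs_of_pos ht0]; exact ht1)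
    simp only [sub_zero, smul_eq_mul, mul_one, Real.norm_eq_abs, abs_of_pos ht0] at h12
    have h13 := (abs_le.1 h12).1
    linarith
  obtain ⟨ε1, hε1, i1⟩ := inc dL
  obtain ⟨ε2, hε2, i2⟩ := inc dR
  refine ⟨v, min ε1 ε2, lt_min hε1 hε2, fun t ht0 ht1 => ⟨?_, ?_⟩⟩
  · have := i1 t ht0 (ht1.trans_le (min_le_left _ _))
    simpa only [z0] using this
  · have := i2 t ht0 (ht1.trans_le (min_le_right _ _))
    simpa only [z0] using this

/-- **SGN**: the sign of `θ` without angles. -/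
theorem JAC_sgn {X Y Z : ℂ} (hYZ : 0 < (Y * (starRingEnd ℂ) Z).re) (h1 : ‖X‖ ≤ ‖Y‖ + ‖Z‖) (h2 : ‖Y‖ ≤ ‖X‖ + ‖Z‖) (h3 : ‖Z‖ ≤ ‖X‖ + ‖Y‖) :
    (0 ≤ thL X Y Z ↔ ‖X‖ ≤ ‖Y - I * Z‖) ∧ (0 < thL X Y Z ↔ ‖X‖ < ‖Y - I * Z‖) := by
  have hY : Y ≠ 0 := by rintro rfl; simp at hYZ
  have hZ : Z ≠ 0 := by rintro rfl; simp at hYZ
  have hy : 0 < ‖Y‖ := norm_pos_iff.2 hY
  have hz : 0 < ‖Z‖ := norm_pos_iff.2 hZ
  have hx : 0 ≤ ‖X‖ := norm_nonneg _
  have hre : 0 < (Y / Z).re := by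
    rw [div_re]
    have hns : 0 < normSq Z := normSq_pos.2 hZ
    have e : Y.re * Z.re / normSq Z + Y.im * Z.im / normSq Z = (Y * (starRingEnd ℂ) Z).re / normSq Z := by
      simp only [mul_re, conj_re, conj_im]; ring
    rw [e]; exact div_pos hYZ hns
  set β := arg (Y / Z) with hβ
  have hβ1 := abs_lt.1 (Complex.abs_arg_lt_pi_div_two_iff.2 (Or.inl hre))
  have hsin : Real.sin β * (‖Y‖ * ‖Z‖) = (Y * (starRingEnd ℂ) Z).im := by
    have h4 : Real.sin β = (Y / Z).im / ‖Y / Z‖ := Complex.sin_arg _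
    have hns : normSq Z = ‖Z‖ ^ 2 := (Complex.sq_norm _).symm
    rw [h4, div_im, hns, norm_div]
    simp only [mul_im, conj_re, conj_im]
    field_simp
    ring
  have hsq : ‖Y - I * Z‖ ^ 2 = ‖Y‖ ^ 2 + ‖Z‖ ^ 2 - 2 * ‖Y‖ * ‖Z‖ * Real.sin β := by
    have h5 : ‖Y - I * Z‖ ^ 2 = ‖Y‖ ^ 2 + ‖Z‖ ^ 2 - 2 * (Y * (starRingEnd ℂ) Z).im := by
      rw [Complex.sq_norm, Complex.sq_norm, Complex.sq_norm, normSq_apply, normSq_apply, normSq_apply]
      simp only [sub_re, sub_im, mul_re, mul_im, I_re, I_im, conj_re, conj_im]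
      ring
    rw [h5, ← hsin]
    ring
  set x := (‖Y‖ ^ 2 + ‖Z‖ ^ 2 - ‖X‖ ^ 2) / (2 * ‖Y‖ * ‖Z‖) with hxd
  have hx1 : x ≤ 1 := by
    rw [hxd, div_le_one (by positivity)]
    nlinarith
  have hx2 : -1 ≤ x := by
    rw [hxd, le_div_iff₀ (by positivity)]
    nlinarith
  have hxe : x * (2 * ‖Y‖ * ‖Z‖) = ‖Y‖ ^ 2 + ‖Z‖ ^ 2 - ‖X‖ ^ 2 := by
    rw [hxd]; field_simp
  have hang : thL X Y Z = Real.pi / 2 - Real.arccos x - β := rfl
  have hcos : Real.cos (Real.pi / 2 - β) = Real.sin β := Real.cos_pi_div_two_sub β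
  have hac : Real.cos (Real.arccos x) = x := Real.cos_arccos hx2 hx1
  have i1 : (0 ≤ thL X Y Z ↔ Real.sin β ≤ x) := by
    rw [hang]
    constructor
    · intro h
      rw [← hcos, ← hac]
      exact Real.cos_le_cos_of_nonneg_of_le_pi (Real.arccos_nonneg x) (by linarith) (by linarith)
    · intro h
      by_contra hcon
      push Not at hcon
      have h6 := Real.cos_lt_cos_of_nonneg_of_le_pi (show 0 ≤ Real.pi / 2 - β by linarith) (Real.arccos_le_pi x) (show Real.pi / 2 - β < Real.arccos x by linarith)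
      rw [hcos, hac] at h6
      linarith
  have i2 : (0 < thL X Y Z ↔ Real.sin β < x) := by
    rw [hang]
    constructor
    · intro h
      rw [← hcos, ← hac]
      exact Real.cos_lt_cos_of_nonneg_of_le_pi (Real.arccos_nonneg x) (by linarith) (by linarith)
    · intro h
      by_contra hcon
      push Not at hcon
      have h6 := Real.cos_le_cos_of_nonneg_of_le_pi (show 0 ≤ Real.pi / 2 - β by linarith) (Real.arccos_le_pi x) (show Real.pi / 2 - β ≤ Real.arccos x by linarith)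
      rw [hcos, hac] at h6
      linarith
  have hp : 0 < 2 * ‖Y‖ * ‖Z‖ := by positivity
  refine ⟨i1.trans ?_, i2.trans ?_⟩
  · rw [← pow_le_pow_iff_left₀ hx (norm_nonneg _) two_ne_zero, hsq, ← mul_le_mul_iff_left₀ hp, hxe]
    constructor <;> intro h <;> linarith
  · rw [← pow_lt_pow_iff_left₀ hx (norm_nonneg _) two_ne_zero, hsq, ← mul_lt_mul_iff_left₀ hp, hxe]
    constructor <;> intro h <;> linarith

/-- `θ_R` is `θ_L` of the permuted triple. -/
theorem thR_eq (L N R : ℂ) : thR L N R = thL R L N := by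
  unfold thR thL aA
  congr 3
  ring

/-- continuity of the angle. -/
theorem JAC_cont {X Y Z : ℂ → ℂ} {z : ℂ} (hX : ContinuousAt X z) (hY : ContinuousAt Y z) (hZ : ContinuousAt Z z)
    (hYZ : 0 < (Y z * (starRingEnd ℂ) (Z z)).re) : ContinuousAt (fun y => thL (X y) (Y y) (Z y)) z := by
  have hY0 : Y z ≠ 0 := by intro h; rw [h] at hYZ; simp at hYZ
  have hZ0 : Z z ≠ 0 := by intro h; rw [h] at hYZ; simp at hYZ
  have hre : 0 < (Y z / Z z).re := by
    rw [div_re]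
    have hns : 0 < normSq (Z z) := normSq_pos.2 hZ0
    have e : (Y z).re * (Z z).re / normSq (Z z) + (Y z).im * (Z z).im / normSq (Z z) = (Y z * (starRingEnd ℂ) (Z z)).re / normSq (Z z) := by
      simp only [mul_re, conj_re, conj_im]; ring
    rw [e]; exact div_pos hYZ hns
  have h1 : ContinuousAt (fun y => Y y / Z y) z := hY.div hZ hZ0
  have h2 : ContinuousAt (fun y => arg (Y y / Z y)) z :=
    ContinuousAt.comp (f := fun y => Y y / Z y) (g := arg) (Complex.continuousAt_arg (Or.inl hre)) h1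
  have h3 : ContinuousAt (fun y => (‖Y y‖ ^ 2 + ‖Z y‖ ^ 2 - ‖X y‖ ^ 2) / (2 * ‖Y y‖ * ‖Z y‖)) z := by
    refine ContinuousAt.div (((hY.norm.pow 2).add (hZ.norm.pow 2)).sub (hX.norm.pow 2)) ((continuousAt_const.mul hY.norm).mul hZ.norm) ?_
    have := norm_pos_iff.2 hY0
    have := norm_pos_iff.2 hZ0
    positivity
  have h4 : ContinuousAt (fun y => aA ‖X y‖ ‖Y y‖ ‖Z y‖) z := Real.continuous_arccos.continuousAt.comp h3
  exact (continuousAt_const.sub h4).sub h2

/-- `θ_L ≤ π` (crude bound). -/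
theorem JAC_bound (X Y Z : ℂ) : thL X Y Z ≤ 2 * Real.pi := by
  have h1 := Real.arccos_nonneg ((‖Y‖ ^ 2 + ‖Z‖ ^ 2 - ‖X‖ ^ 2) / (2 * ‖Y‖ * ‖Z‖))
  have h2 := Complex.neg_pi_lt_arg (Y / Z)
  have h3 := Real.pi_pos
  unfold thL aA
  linarith

end M4J
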