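import Pool.Agent.helper95.M4.Defs
import Pool.Agent.helper8.M4.JAC

/-!
# Project M4 (MP_1b8d20, frozen statement S03975), block IVb: statements (helper8)

Block IVb needs from the other blocks only `CLS_stmt` (block IVa, helper30); `ADM` (block I) is proved in ADM.lean.
It proves `OMP` (energy is nonnegative on `Ch`, positive after the first move), `CHO` (`Ch w` is open), `NEAR` and `CLOPEN`.
-/

set_option autoImplicit false

namespace Pool.Agent.M4

open Complex ComplexConjugate Filter Topology

/-- the angle `θ_L` at the word `w`. -/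
noncomputable def tL (w : List Bool) (z : ℂ) : ℝ := M4J.thL (Lf w z) (Nf w z) (Rf w z)

/-- the angle `θ_R` at the word `w`. -/
noncomputable def tR (w : List Bool) (z : ℂ) : ℝ := M4J.thR (Lf w z) (Nf w z) (Rf w z)

/-- Block IVa (helper30): closedness in bounded depth. The angles of the stopping triples stay `≥ d > 0`. The limit
is in the open quadrant and either on the circle `‖z‖ = 2` or a top point of a suffix (ancestor) of the word. -/
def CLS_stmt : Prop := ∀ (w : List Bool) (u : ℕ → ℂ) (z : ℂ) (d : ℝ), (∀ n, InT w (u n)) → Tendsto u atTop (𝓝 z) →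
  0 < d → (∀ n, d ≤ tL w (u n)) → (∀ n, d ≤ tR w (u n)) →
  z ∈ Qd ∧ (‖z‖ = 2 ∨ ∃ w' : List Bool, w' <:+ w ∧ InT w' z)

/-- energy: `Om` is `0` at the root and increases at every move of the algorithm. -/
def OMP_stmt : Prop := ∀ (w : List Bool) (z : ℂ), Ch w z → 0 ≤ Om w z ∧ (w ≠ [] → 0 < Om w z)

/-- the set of the points at which the algorithm runs through `w` is open. -/
def CHO_stmt : Prop := ∀ w : List Bool, IsOpen {z : ℂ | Ch w z}

/-- near a top point, positivity of the two angles gives a top point. -/
def NEAR_stmt : Prop := ∀ (w : List Bool) (z : ℂ), InT w z → ∀ᶠ z' in 𝓝 z, 0 < tL w z' → 0 < tR w z' → InT w z'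

end Pool.Agent.M4
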