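import Mathlib

/-!
# Project m4: (MP_1b8d20_an, S03975), block IVb: abstract CLOPEN lemma (helper8)

`InT w z`: the algorithm follows the word `w` (last move at the head) and ends with TOP. `f w`, `g w` are the two angles `θ_L`, `θ_R`. Maximise `min (f w) (g w)` over `B ∩ InT w` for `w` of minimal length.
-/

set_option autoImplicit false

open Metric Set Filter Topology

noncomputable section

namespace M4J

/-- the abstract CLOPEN lemma. -/
theorem CLO_abs {InT : List Bool → ℂ → Prop} {f g : List Bool → ℂ → ℝ} {Q B : Set ℂ} {K : ℝ}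
    (hCLS : ∀ (w : List Bool) (u : ℕ → ℂ) (z : ℂ) (d : ℝ), (∀ n, InT w (u n)) → Tendsto u atTop (𝓝 z) → 0 < d →
      (∀ n, d ≤ f w (u n)) → (∀ n, d ≤ g w (u n)) → z ∈ Q ∧ (‖z‖ = 2 ∨ ∃ w' : List Bool, w' <:+ w ∧ InT w' z))
    (hOPN : ∀ (w : List Bool) (z : ℂ), InT w z → ∀ᶠ z' in 𝓝 z, 0 < f w z' → 0 < g w z' → InT w z')
    (hINC : ∀ (w : List Bool) (z : ℂ), InT w z → ∃ v : ℂ, ∃ ε > (0 : ℝ), ∀ t : ℝ, 0 < t → t < ε →
      f w z < f w (z + t * v) ∧ g w z < g w (z + t * v))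
    (hNNG : ∀ (w : List Bool) (z : ℂ), InT w z → 0 ≤ f w z ∧ 0 ≤ g w z)
    (hCON : ∀ (w : List Bool) (z : ℂ), InT w z → ContinuousAt (f w) z ∧ ContinuousAt (g w) z)
    (hBND : ∀ (w : List Bool) (z : ℂ), InT w z → ‖z‖ ≤ 2 ∧ f w z ≤ K)
    (hBT : ∀ z ∈ B, ∃ w, InT w z) (hBo : IsOpen B) (hBc : ∀ z ∈ closure B, (∃ w, InT w z) → z ∈ B)
    (hB2 : ∀ z ∈ closure B, z ∈ Q → ‖z‖ ≠ 2) : B = ∅ := by
  by_contra hne
  obtain ⟨b, hb⟩ := nonempty_iff_ne_empty.2 hne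
  -- minimal length
  have hex : ∃ m : ℕ, ∃ w : List Bool, w.length = m ∧ ∃ z ∈ B, InT w z := by
    obtain ⟨w, hw⟩ := hBT b hb
    exact ⟨_, w, rfl, b, hb, hw⟩
  classical
  obtain ⟨w, hwm, z₀, hz₀B, hz₀⟩ := Nat.find_spec hex
  have hmin : ∀ (w' : List Bool) (z : ℂ), z ∈ B → InT w' z → w.length ≤ w'.length := by
    intro w' z hz hw'
    rw [hwm]
    exact Nat.find_min' hex ⟨w', rfl, z, hz, hw'⟩
  -- the step
  have step : ∀ z ∈ B, InT w z → ∃ z' ∈ B, InT w z' ∧ f w z < f w z' ∧ g w z < g w z' := by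
    intro z hz hw
    obtain ⟨v, ε, hε, hv⟩ := hINC w z hw
    have hcont : Tendsto (fun t : ℝ => z + (t : ℂ) * v) (𝓝[>] 0) (𝓝 z) := by
      have h1 : Continuous (fun t : ℝ => z + (t : ℂ) * v) := by fun_prop
      have h2 : Tendsto (fun t : ℝ => z + (t : ℂ) * v) (𝓝 0) (𝓝 (z + ((0 : ℝ) : ℂ) * v)) := h1.tendsto 0
      simp only [Complex.ofReal_zero, zero_mul, add_zero] at h2
      exact h2.mono_left nhdsWithin_le_nhds
    have e1 : ∀ᶠ t : ℝ in 𝓝[>] (0 : ℝ), z + (t : ℂ) * v ∈ B := hcont.eventually (hBo.mem_nhds hz)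
    have e2 : ∀ᶠ t : ℝ in 𝓝[>] (0 : ℝ), 0 < f w (z + (t : ℂ) * v) → 0 < g w (z + (t : ℂ) * v) → InT w (z + (t : ℂ) * v) :=
      hcont.eventually (hOPN w z hw)
    have e3 : ∀ᶠ t : ℝ in 𝓝[>] (0 : ℝ), t ∈ Ioo (0 : ℝ) ε := Ioo_mem_nhdsGT hε
    obtain ⟨t, h1, h2, h3⟩ := (e1.and (e2.and e3)).exists
    obtain ⟨h4, h5⟩ := hv t h3.1 h3.2
    obtain ⟨h6, h7⟩ := hNNG w z hw
    exact ⟨_, h1, h2 (by linarith) (by linarith), h4, h5⟩
  set S : Set ℝ := {x | ∃ z ∈ B, InT w z ∧ x = min (f w z) (g w z)} with hS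
  have hbdd : BddAbove S := by
    refine ⟨K, ?_⟩
    rintro x ⟨z, -, hw, rfl⟩
    exact (min_le_left _ _).trans (hBND w z hw).2
  obtain ⟨z₁, hz₁B, hz₁, hf1, hg1⟩ := step z₀ hz₀B hz₀
  have hx1 : 0 < min (f w z₁) (g w z₁) := by
    have := hNNG w z₀ hz₀
    exact lt_min (by linarith) (by linarith)
  have hSne : S.Nonempty := ⟨_, z₁, hz₁B, hz₁, rfl⟩
  have hM : 0 < sSup S := hx1.trans_le (le_csSup hbdd ⟨z₁, hz₁B, hz₁, rfl⟩)
  set M := sSup S with hMdef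
  have hseq : ∀ n : ℕ, ∃ z ∈ B, InT w z ∧ M - M / 2 / (n + 1) < min (f w z) (g w z) := by
    intro n
    have h1 : M - M / 2 / ((n : ℝ) + 1) < M := by
      have : 0 < M / 2 / ((n : ℝ) + 1) := by positivity
      linarith
    obtain ⟨x, ⟨z, hz, hw, rfl⟩, hx⟩ := exists_lt_of_lt_csSup hSne h1
    exact ⟨z, hz, hw, hx⟩
  choose u huB huT hu using hseq
  have hcomp : IsCompact (closedBall (0 : ℂ) 2) := isCompact_closedBall _ _
  obtain ⟨z, -, φ, hφ, hlim⟩ := hcomp.tendsto_subseq (x := u) (fun n => by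
    rw [mem_closedBall_zero_iff]; exact (hBND w _ (huT n)).1)
  have hhalf : ∀ n : ℕ, M / 2 / ((n : ℝ) + 1) ≤ M / 2 := by
    intro n
    apply div_le_self (by positivity)
    have : (0 : ℝ) ≤ n := Nat.cast_nonneg n
    linarith
  have hzcl : z ∈ closure B := mem_closure_of_tendsto hlim (Eventually.of_forall fun n => huB (φ n))
  obtain ⟨hzQ, hz2⟩ := hCLS w (u ∘ φ) z (M / 2) (fun n => huT (φ n)) hlim (by positivity)
    (fun n => by
      have h1 := hu (φ n)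
      have h2 := hhalf (φ n)
      have h3 := min_le_left (f w (u (φ n))) (g w (u (φ n)))
      show M / 2 ≤ f w (u (φ n))
      linarith)
    (fun n => by
      have h1 := hu (φ n)
      have h2 := hhalf (φ n)
      have h3 := min_le_right (f w (u (φ n))) (g w (u (φ n)))
      show M / 2 ≤ g w (u (φ n))
      linarith)
  have hz3 : ∃ w' : List Bool, w' <:+ w ∧ InT w' z := hz2.resolve_left (hB2 z hzcl hzQ)
  obtain ⟨w', hw', hzw'⟩ := hz3
  have hzB : z ∈ B := hBc z hzcl ⟨w', hzw'⟩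
  have hlen := hmin w' z hzB hzw'
  have hweq : w' = w := hw'.eq_of_length (le_antisymm hw'.length_le hlen)
  rw [hweq] at hzw'
  have htend : Tendsto (fun n : ℕ => M - M / 2 / (((φ n : ℕ) : ℝ) + 1)) atTop (𝓝 M) := by
    have h1 : Tendsto (fun n : ℕ => M / 2 / ((n : ℝ) + 1)) atTop (𝓝 0) :=
      tendsto_const_nhds.div_atTop (tendsto_atTop_add_const_right _ _ tendsto_natCast_atTop_atTop)
    have h2 := (h1.comp hφ.tendsto_atTop).const_sub M
    simpa using h2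
  have hfz : M ≤ f w z := by
    refine le_of_tendsto_of_tendsto htend ((hCON w z hzw').1.tendsto.comp hlim) (Eventually.of_forall fun n => ?_)
    exact (hu (φ n)).le.trans (min_le_left _ _)
  have hgz : M ≤ g w z := by
    refine le_of_tendsto_of_tendsto htend ((hCON w z hzw').2.tendsto.comp hlim) (Eventually.of_forall fun n => ?_)
    exact (hu (φ n)).le.trans (min_le_right _ _)
  obtain ⟨z', hz'B, hz', hf', hg'⟩ := step z hzB hzw'
  have h5 : min (f w z') (g w z') ≤ M := le_csSup hbdd ⟨z', hz'B, hz', rfl⟩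
  have h6 : M < min (f w z') (g w z') := lt_min (by linarith) (by linarith)
  linarith

end M4J
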