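import Pool.Agent.helper8.M4.OMP
import Pool.Agent.helper8.M4.CLO

/-!
# Project M4 (MP_1b8d20, S03975), block IVb: openness and CLOPEN (helper8)
-/

set_option autoImplicit false

namespace Pool.Agent.M4

open Complex ComplexConjugate Filter Topology

theorem Ch.qd {w : List Bool} {z : ℂ} (h : Ch w z) : z ∈ Qd ∧ ‖z‖ < 2 := by
  induction w with
  | nil => exact h
  | cons b w ih => exact ih h.1

theorem isOpen_Qd : IsOpen Qd :=
  (isOpen_lt continuous_const continuous_re).inter (isOpen_lt continuous_const continuous_im)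

/-- `Ch w` is an open condition. -/
theorem CHO : CHO_stmt := by
  intro w
  induction w with
  | nil => exact isOpen_Qd.inter (isOpen_lt continuous_norm continuous_const)
  | cons b w ih =>
    obtain ⟨dL, dN, dR⟩ := Diff_Tr w
    have cL := dL.continuous
    have cN := dN.continuous
    have cR := dR.continuous
    cases b with
    | true =>
      have e : {z : ℂ | Ch (true :: w) z} = {z : ℂ | Ch w z} ∩ ({z : ℂ | 0 < (Nf w z).im} ∩ ({z : ℂ | 0 < (Nf w z * conj (Rf w z)).re} ∩
          {z : ℂ | ‖Nf w z - I * Rf w z‖ < ‖Lf w z‖})) := by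
        ext z
        constructor
        · rintro ⟨h1, h2⟩
          exact ⟨h1, h2.im, h2.re, h2.lt⟩
        · rintro ⟨h1, h2, h3, h4⟩
          exact ⟨h1, ⟨h2, h3, h4⟩⟩
      rw [e]
      refine ih.inter ((isOpen_lt continuous_const (continuous_im.comp cN)).inter ((isOpen_lt continuous_const ?_).inter (isOpen_lt ?_ ?_)))
      · exact continuous_re.comp (cN.mul (Complex.continuous_conj.comp cR))
      · exact (cN.sub (continuous_const.mul cR)).norm
      · exact cL.norm
    | false =>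
      have e : {z : ℂ | Ch (false :: w) z} = {z : ℂ | Ch w z} ∩ ({z : ℂ | (Nf w z).im < 0} ∩ ({z : ℂ | 0 < (Lf w z * conj (Nf w z)).re} ∩
          {z : ℂ | ‖Lf w z - I * Nf w z‖ < ‖Rf w z‖})) := by
        ext z
        constructor
        · rintro ⟨h1, h2⟩
          exact ⟨h1, h2.im, h2.re, h2.lt⟩
        · rintro ⟨h1, h2, h3, h4⟩
          exact ⟨h1, ⟨h2, h3, h4⟩⟩
      rw [e]
      refine ih.inter ((isOpen_lt (continuous_im.comp cN) continuous_const).inter ((isOpen_lt continuous_const ?_).inter (isOpen_lt ?_ ?_)))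
      · exact continuous_re.comp (cL.mul (Complex.continuous_conj.comp cN))
      · exact (cL.sub (continuous_const.mul cN)).norm
      · exact cR.norm

/-- the signs of the two angles. -/
theorem sgn_tL {w : List Bool} {z : ℂ} (h : Adm (Lf w z) (Nf w z) (Rf w z)) (h1 : 0 < (Nf w z * conj (Rf w z)).re) :
    (0 ≤ tL w z ↔ ‖Lf w z‖ ≤ ‖Nf w z - I * Rf w z‖) ∧ (0 < tL w z ↔ ‖Lf w z‖ < ‖Nf w z - I * Rf w z‖) := by
  obtain ⟨t1, t2, t3⟩ := h.tri
  exact M4J.JAC_sgn h1 (by linarith) (by linarith) (by linarith)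

theorem sgn_tR {w : List Bool} {z : ℂ} (h : Adm (Lf w z) (Nf w z) (Rf w z)) (h1 : 0 < (Lf w z * conj (Nf w z)).re) :
    (0 ≤ tR w z ↔ ‖Rf w z‖ ≤ ‖Lf w z - I * Nf w z‖) ∧ (0 < tR w z ↔ ‖Rf w z‖ < ‖Lf w z - I * Nf w z‖) := by
  obtain ⟨t1, t2, t3⟩ := h.tri
  unfold tR
  rw [M4J.thR_eq]
  exact M4J.JAC_sgn h1 (by linarith) (by linarith) (by linarith)

/-- **NEAR**. -/
theorem NEAR (hADM : ∀ (w : List Bool) (z : ℂ), Ch w z → Adm (Lf w z) (Nf w z) (Rf w z)) : NEAR_stmt := by
  intro w z hz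
  obtain ⟨dL, dN, dR⟩ := Diff_Tr w
  have cL := dL.continuous
  have cN := dN.continuous
  have cR := dR.continuous
  have e1 : ∀ᶠ z' in 𝓝 z, Ch w z' := (CHO w).mem_nhds hz.1
  have o2 : IsOpen {z : ℂ | 0 < (Nf w z * conj (Rf w z)).re} :=
    isOpen_lt continuous_const (continuous_re.comp (cN.mul (Complex.continuous_conj.comp cR)))
  have o3 : IsOpen {z : ℂ | 0 < (Lf w z * conj (Nf w z)).re} :=
    isOpen_lt continuous_const (continuous_re.comp (cL.mul (Complex.continuous_conj.comp cN)))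
  have e2 : ∀ᶠ z' in 𝓝 z, 0 < (Nf w z' * conj (Rf w z')).re := o2.mem_nhds hz.2.reNR
  have e3 : ∀ᶠ z' in 𝓝 z, 0 < (Lf w z' * conj (Nf w z')).re := o3.mem_nhds hz.2.reLN
  filter_upwards [e1, e2, e3] with y h1 h2 h3 h4 h5
  have had := hADM w y h1
  have h6 := (sgn_tL had h2).2.1 h4
  have h7 := (sgn_tR had h3).2.1 h5
  exact ⟨h1, h2, h3, h6.le, h7.le, Or.inl h6⟩

/-- **CLOPEN**. -/
theorem CLOPEN8 (hADM : ∀ (w : List Bool) (z : ℂ), Ch w z → Adm (Lf w z) (Nf w z) (Rf w z)) (hCLS : CLS_stmt) :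
    ∀ B : Set ℂ, B ⊆ TT → IsOpen B → closure B ∩ TT ⊆ B → (∀ z ∈ closure B, z ∈ Qd → ‖z‖ ≠ 2) → B = ∅ := by
  intro B hBT hBo hBc hB2
  refine M4J.CLO_abs (InT := InT) (f := tL) (g := tR) (Q := Qd) (B := B) (K := 2 * Real.pi) hCLS (NEAR hADM) ?_ ?_ ?_ ?_
    (fun z hz => hBT hz) hBo (fun z hz hw => hBc ⟨hz, hw⟩) hB2
  · -- INC
    intro w z hz
    obtain ⟨dL, dN, dR⟩ := Diff_Tr w
    have had := hADM w z hz.1
    obtain ⟨t1, t2, t3⟩ := had.tri
    have hz0 : z ≠ 0 := by
      rintro rfl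
      have := hz.1.qd.1.1
      simp at this
    obtain ⟨hom, hom'⟩ := OMP hADM w z hz.1
    have eL : zL w z = z * (deriv (Lf w) z / Lf w z) := by unfold zL dl; ring
    have eN : zN w z = z * (deriv (Nf w) z / Nf w z) := by unfold zN dl; ring
    have eR : zR w z = z * (deriv (Rf w) z / Rf w z) := by unfold zR dl; ring
    refine M4J.JAC_inc (dL z).hasDerivAt (dN z).hasDerivAt (dR z).hasDerivAt had.L0 had.N0 had.R0 hz.2.reNR hz.2.reLN t1 t2 t3 ?_ ?_
    · rintro ⟨h1, h2⟩
      rcases eq_or_ne w [] with rfl | hne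
      · have h3 : zL [] z = zN [] z := by rw [eL, eN, h1]
        rw [dl_root_L hz0, dl_root_N hz0] at h3
        norm_num at h3
      · have h3 := hom' hne
        unfold Om at h3
        rw [eL, eN, eR, h1, h2] at h3
        have h4 : ∀ x : ℂ, (conj x * x + conj x * x + conj x * x).im = 0 := by
          intro x
          simp only [add_im, mul_im, conj_re, conj_im]
          ring
        rw [h4] at h3
        exact lt_irrefl _ h3
    · have h1 : 0 < normSq z := normSq_pos.2 hz0
      have h2 : Om w z = - (normSq z * ((deriv (Lf w) z / Lf w z - deriv (Nf w) z / Nf w z) *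
          (starRingEnd ℂ) (deriv (Nf w) z / Nf w z - deriv (Rf w) z / Rf w z)).im) := by
        unfold Om
        rw [eL, eN, eR]
        generalize deriv (Lf w) z / Lf w z = p
        generalize deriv (Nf w) z / Nf w z = q
        generalize deriv (Rf w) z / Rf w z = r
        simp only [map_mul, map_sub, normSq_apply, add_im, mul_im, mul_re, sub_re, sub_im, conj_re, conj_im]
        ring
      rw [h2] at hom
      by_contra hcon
      push Not at hcon
      have := mul_pos h1 hcon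
      linarith
  · -- NNG
    intro w z hz
    have had := hADM w z hz.1
    exact ⟨(sgn_tL had hz.2.reNR).1.2 hz.2.thL, (sgn_tR had hz.2.reLN).1.2 hz.2.thR⟩
  · -- CON
    intro w z hz
    obtain ⟨dL, dN, dR⟩ := Diff_Tr w
    refine ⟨M4J.JAC_cont dL.continuous.continuousAt dN.continuous.continuousAt dR.continuous.continuousAt hz.2.reNR, ?_⟩
    have e : tR w = fun y => M4J.thL (Rf w y) (Lf w y) (Nf w y) := by
      funext y; exact M4J.thR_eq _ _ _
    rw [e]
    exact M4J.JAC_cont dR.continuous.continuousAt dL.continuous.continuousAt dN.continuous.continuousAt hz.2.reLN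
  · -- BND
    intro w z hz
    exact ⟨hz.1.qd.2.le, M4J.JAC_bound _ _ _⟩

end Pool.Agent.M4
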