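import Pool.Agent.helper8.M4.Spec
import Pool.Agent.helper95.M4.Chk

/-!
# Project M4 (MP_1b8d20, S03975), block IVb: the energy `Om` increases (helper8)
-/

set_option autoImplicit false

namespace Pool.Agent.M4

open Complex ComplexConjugate Filter Topology

/-- the entries are differentiable (polynomials). -/
theorem Diff_Tr (w : List Bool) : Differentiable ℂ (Lf w) ∧ Differentiable ℂ (Nf w) ∧ Differentiable ℂ (Rf w) := by
  induction w with
  | nil =>
    refine ⟨?_, ?_, ?_⟩
    · exact differentiable_id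
    · exact (differentiable_id.pow 2).const_mul (-I)
    · exact differentiable_id.const_mul (-I)
  | cons b w ih =>
    obtain ⟨h1, h2, h3⟩ := ih
    cases b with
    | true => exact ⟨h2, (h2.mul h3).sub h1, h3⟩
    | false => exact ⟨h1, (h1.mul h2).sub h3, h2⟩

/-- the energy identity. -/
theorem OMP_id (p a b c d : ℂ) (h : a + d = 2 * p * b + 2 * (1 - p) * c) :
    (conj b * d + conj d * c + conj c * b).im = (conj a * b + conj b * c + conj c * a).im + 2 * p.im * ‖b - c‖ ^ 2 := by
  have e : d = 2 * p * b + 2 * (1 - p) * c - a := by linear_combination h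
  rw [e, Complex.sq_norm, normSq_apply]
  simp only [map_sub, map_add, map_mul, map_one, add_im, mul_im, mul_re, sub_re, sub_im, add_re, conj_re, conj_im, one_re, one_im,
    Complex.conj_ofNat, Complex.re_ofNat, Complex.im_ofNat]
  ring

/-- the weight has positive imaginary part. -/
theorem OMP_wt {Y Z : ℂ} (h1 : 0 < (Y * conj Z).re) (h2 : 0 < (Y * conj Z).im) : Y ^ 2 + Z ^ 2 ≠ 0 ∧ 0 < (Y ^ 2 / (Y ^ 2 + Z ^ 2)).im := by
  have e1 : (Y ^ 2 * conj (Y ^ 2 + Z ^ 2)).im = 2 * (Y * conj Z).re * (Y * conj Z).im := by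
    simp only [map_add, pow_two, mul_im, mul_re, add_re, add_im, conj_re, conj_im]
    ring
  have h3 : Y ^ 2 + Z ^ 2 ≠ 0 := by
    intro h
    rw [h] at e1
    simp only [map_zero, mul_zero, zero_im] at e1
    have : 0 < 2 * (Y * conj Z).re * (Y * conj Z).im := by positivity
    linarith
  refine ⟨h3, ?_⟩
  have h4 : 0 < normSq (Y ^ 2 + Z ^ 2) := normSq_pos.2 h3
  have e2 : (Y ^ 2 / (Y ^ 2 + Z ^ 2)).im = (Y ^ 2 * conj (Y ^ 2 + Z ^ 2)).im / normSq (Y ^ 2 + Z ^ 2) := by
    rw [div_im, mul_im, conj_re, conj_im]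
    ring
  rw [e2, e1]
  positivity

theorem GoL_im {L N R : ℂ} (h : Adm L N R) (g : GoL L N R) : 0 < (N * conj R).im := by
  have h1 := h.reR
  have h2 := h.imR
  have h3 := g.im
  have h4 := g.re
  simp only [mul_re, mul_im, conj_re, conj_im] at h4 ⊢
  have h5 : 0 < N.re := by
    by_contra hcon
    push Not at hcon
    have h6 : N.re * R.re ≤ 0 := mul_nonpos_of_nonpos_of_nonneg hcon h1.le
    have h7 : N.im * R.im < 0 := mul_neg_of_pos_of_neg h3 h2
    linarith
  have h6 : 0 < N.im * R.re := mul_pos h3 h1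
  have h7 : N.re * R.im < 0 := mul_neg_of_pos_of_neg h5 h2
  linarith

theorem GoR_im {L N R : ℂ} (h : Adm L N R) (g : GoR L N R) : 0 < (L * conj N).im := by
  have h1 := h.reL
  have h2 := h.imL
  have h3 := g.im
  have h4 := g.re
  simp only [mul_re, mul_im, conj_re, conj_im] at h4 ⊢
  have h5 : 0 < N.re := by
    by_contra hcon
    push Not at hcon
    have h6 : L.re * N.re ≤ 0 := mul_nonpos_of_nonneg_of_nonpos h1.le hcon
    have h7 : L.im * N.im < 0 := mul_neg_of_pos_of_neg h2 h3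
    linarith
  have h6 : 0 < L.im * N.re := mul_pos h2 h5
  have h7 : L.re * N.im < 0 := mul_neg_of_pos_of_neg h1 h3
  linarith

theorem Adm.L0 {L N R : ℂ} (h : Adm L N R) : L ≠ 0 := by
  rintro rfl
  have := h.reL
  simp at this

theorem Adm.R0 {L N R : ℂ} (h : Adm L N R) : R ≠ 0 := by
  rintro rfl
  have := h.reR
  simp at this

theorem Adm.N0 {L N R : ℂ} (h : Adm L N R) : N ≠ 0 := by
  rintro rfl
  have := h.lo
  rw [norm_zero] at this
  exact absurd (norm_nonneg _) (not_le.2 this)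

theorem Adm.tri {L N R : ℂ} (h : Adm L N R) : ‖N‖ < ‖L‖ + ‖R‖ ∧ ‖L‖ < ‖N‖ + ‖R‖ ∧ ‖R‖ < ‖L‖ + ‖N‖ := by
  have h1 : ‖I * R‖ = ‖R‖ := by rw [norm_mul, norm_I, one_mul]
  have h2 : ‖L + I * R‖ ≤ ‖L‖ + ‖R‖ := by rw [← h1]; exact norm_add_le _ _
  have h3 : ‖L‖ ≤ ‖L - I * R‖ + ‖R‖ := by
    have e : L = (L - I * R) + I * R := by ring
    calc ‖L‖ = ‖(L - I * R) + I * R‖ := by rw [← e]
      _ ≤ ‖L - I * R‖ + ‖I * R‖ := norm_add_le _ _
      _ = ‖L - I * R‖ + ‖R‖ := by rw [h1]
  have h4 : ‖R‖ ≤ ‖L‖ + ‖L - I * R‖ := by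
    have e : I * R = L - (L - I * R) := by ring
    calc ‖R‖ = ‖L - (L - I * R)‖ := by rw [← e, h1]
      _ ≤ ‖L‖ + ‖L - I * R‖ := norm_sub_le _ _
  have h5 := h.lo
  have h6 := h.hi
  exact ⟨by linarith, by linarith, by linarith⟩

/-- the relation of the logarithmic derivatives when one passes an edge. -/
theorem dl_rel {F G H K : ℂ → ℂ} {z : ℂ} (hF : Differentiable ℂ F) (hG : Differentiable ℂ G) (hH : Differentiable ℂ H) (hK : Differentiable ℂ K)
    (e : ∀ y, F y * K y = G y ^ 2 + H y ^ 2) (hG0 : G z ≠ 0) (hH0 : H z ≠ 0) (h0 : G z ^ 2 + H z ^ 2 ≠ 0) :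
    dl F z + dl K z = 2 * (G z ^ 2 / (G z ^ 2 + H z ^ 2)) * dl G z + 2 * (1 - G z ^ 2 / (G z ^ 2 + H z ^ 2)) * dl H z := by
  have hFK : F z * K z ≠ 0 := by rw [e]; exact h0
  have hF0 : F z ≠ 0 := left_ne_zero_of_mul hFK
  have hK0 : K z ≠ 0 := right_ne_zero_of_mul hFK
  have h1 : HasDerivAt (fun y => F y * K y) (deriv F z * K z + F z * deriv K z) z :=
    (hF z).hasDerivAt.mul (hK z).hasDerivAt
  have h2 : HasDerivAt (fun y => G y ^ 2 + H y ^ 2) (2 * G z * deriv G z + 2 * H z * deriv H z) z := by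
    refine (((hG z).hasDerivAt.pow 2).add ((hH z).hasDerivAt.pow 2)).congr_deriv ?_
    simp only [Nat.add_one_sub_one, pow_one, Nat.cast_ofNat]
  have h3 : deriv F z * K z + F z * deriv K z = 2 * G z * deriv G z + 2 * H z * deriv H z := by
    have e' : (fun y => F y * K y) = fun y => G y ^ 2 + H y ^ 2 := funext e
    rw [e'] at h1
    exact h1.unique h2
  have e4 : dl F z + dl K z = z * (deriv F z * K z + F z * deriv K z) / (F z * K z) := by
    unfold dl
    field_simp
  rw [e4, h3, e z]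
  unfold dl
  field_simp
  ring

theorem dl_root_L {z : ℂ} (hz : z ≠ 0) : zL [] z = 1 := by
  have h : HasDerivAt (Lf []) 1 z := hasDerivAt_id z
  unfold zL dl
  rw [h.deriv]
  show z * 1 / z = 1
  field_simp

theorem dl_root_R {z : ℂ} (hz : z ≠ 0) : zR [] z = 1 := by
  have h : HasDerivAt (Rf []) (-I * 1) z := (hasDerivAt_id z).const_mul (-I)
  unfold zR dl
  rw [h.deriv]
  show z * (-I * 1) / (-I * z) = 1
  have := I_ne_zero
  field_simp

theorem dl_root_N {z : ℂ} (hz : z ≠ 0) : zN [] z = 2 := by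
  have h : HasDerivAt (Nf []) (-I * (2 * z)) z := by
    have := ((hasDerivAt_id z).pow 2).const_mul (-I)
    refine this.congr_deriv ?_
    simp
  unfold zN dl
  rw [h.deriv]
  show z * (-I * (2 * z)) / (-I * z ^ 2) = 2
  have := I_ne_zero
  field_simp

/-- **OMP**: the energy is nonnegative and positive after the first move. -/
theorem OMP (hADM : ∀ (w : List Bool) (z : ℂ), Ch w z → Adm (Lf w z) (Nf w z) (Rf w z)) : OMP_stmt := by
  intro w
  induction w with
  | nil =>
    intro z hz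
    have hz0 : z ≠ 0 := by
      rintro rfl
      have := hz.1.1
      simp at this
    refine ⟨?_, fun h => absurd rfl h⟩
    unfold Om
    rw [dl_root_L hz0, dl_root_N hz0, dl_root_R hz0]
    simp
  | cons b w ih =>
    intro z hz
    obtain ⟨hw, hgo⟩ := hz
    obtain ⟨h0, h1⟩ := ih z hw
    have had := hADM w z hw
    have hz0 : z ≠ 0 := by
      intro h
      have : ∀ w : List Bool, Ch w z → z ∈ Qd := by
        intro w
        induction w with
        | nil => exact fun h => h.1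
        | cons b w ih2 => exact fun h => ih2 h.1
      have h2 := (this w hw).1
      rw [h] at h2
      simp at h2
    obtain ⟨dL, dN, dR⟩ := Diff_Tr w
    have hmk : ∀ y, Mk (Lf w y) (Nf w y) (Rf w y) := Mk_Tr w
    suffices h : 0 < Om (b :: w) z from ⟨h.le, fun _ => h⟩
    cases b with
    | true =>
      have g : GoL (Lf w z) (Nf w z) (Rf w z) := hgo
      obtain ⟨hs, hp⟩ := OMP_wt g.re (GoL_im had g)
      have dK : Differentiable ℂ (Nf (true :: w)) := (Diff_Tr (true :: w)).2.1
      have hrel := dl_rel (z := z) dL dN dR dK (fun y => by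
        have h2 := hmk y
        unfold Mk at h2
        show Lf w y * (Nf w y * Rf w y - Lf w y) = _
        linear_combination -h2) had.N0 had.R0 hs
      have h2 := OMP_id _ (zL w z) (zN w z) (zR w z) (zN (true :: w) z) hrel
      have h3 : Om (true :: w) z = Om w z + 2 * (Nf w z ^ 2 / (Nf w z ^ 2 + Rf w z ^ 2)).im * ‖zN w z - zR w z‖ ^ 2 := h2
      rw [h3]
      rcases eq_or_ne w [] with rfl | hne
      · rw [dl_root_N hz0, dl_root_R hz0]
        have : ‖(2 : ℂ) - 1‖ = 1 := by norm_num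
        rw [this]
        have h5 : 0 < 2 * (Nf [] z ^ 2 / (Nf [] z ^ 2 + Rf [] z ^ 2)).im * 1 ^ 2 := by positivity
        linarith
      · have h4 := h1 hne
        have h5 : 0 ≤ 2 * (Nf w z ^ 2 / (Nf w z ^ 2 + Rf w z ^ 2)).im * ‖zN w z - zR w z‖ ^ 2 := by positivity
        linarith
    | false =>
      have g : GoR (Lf w z) (Nf w z) (Rf w z) := hgo
      obtain ⟨hs, hp⟩ := OMP_wt g.re (GoR_im had g)
      have dK : Differentiable ℂ (Nf (false :: w)) := (Diff_Tr (false :: w)).2.1
      have hrel := dl_rel (z := z) dR dL dN dK (fun y => by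
        have h2 := hmk y
        unfold Mk at h2
        show Rf w y * (Lf w y * Nf w y - Rf w y) = _
        linear_combination -h2) had.L0 had.N0 hs
      have h2 := OMP_id _ (zR w z) (zL w z) (zN w z) (zN (false :: w) z) hrel
      have e0 : (conj (zR w z) * zL w z + conj (zL w z) * zN w z + conj (zN w z) * zR w z).im = Om w z := by
        unfold Om
        congr 1
        ring
      have h3 : Om (false :: w) z = Om w z + 2 * (Lf w z ^ 2 / (Lf w z ^ 2 + Nf w z ^ 2)).im * ‖zL w z - zN w z‖ ^ 2 := by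
        rw [← e0]
        exact h2
      rw [h3]
      rcases eq_or_ne w [] with rfl | hne
      · rw [dl_root_N hz0, dl_root_L hz0]
        have : ‖(1 : ℂ) - 2‖ = 1 := by norm_num
        rw [this]
        have h5 : 0 < 2 * (Lf [] z ^ 2 / (Lf [] z ^ 2 + Nf [] z ^ 2)).im * 1 ^ 2 := by positivity
        linarith
      · have h4 := h1 hne
        have h5 : 0 ≤ 2 * (Lf w z ^ 2 / (Lf w z ^ 2 + Nf w z ^ 2)).im * ‖zL w z - zN w z‖ ^ 2 := by positivity
        linarith

end Pool.Agent.M4
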