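import Pool.Agent.helper8.M4.ADM

/-!
# Project M4 (MP_1b8d20, S03975), block I: `TT` is open (helper8)

At a top triple with `θ_L = 0` (ideal) the child which drops `L` is strictly top in a whole neighbourhood.
-/

set_option autoImplicit false

namespace Pool.Agent.M4

open Complex ComplexConjugate Filter Topology

theorem nsq_sub (X Y : ℂ) : ‖X - I * Y‖ ^ 2 = normSq X + normSq Y - 2 * (X * conj Y).im := by
  rw [Complex.sq_norm, normSq_apply, normSq_apply, normSq_apply]
  simp only [sub_re, sub_im, mul_re, mul_im, I_re, I_im, conj_re, conj_im]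
  ring

theorem nsq_add (X Y : ℂ) : ‖X + I * Y‖ ^ 2 = normSq X + normSq Y + 2 * (X * conj Y).im := by
  rw [Complex.sq_norm, normSq_apply, normSq_apply, normSq_apply]
  simp only [add_re, add_im, mul_re, mul_im, I_re, I_im, conj_re, conj_im]
  ring

/-- if `θ_L = 0 < θ_R` then `Im N > 0`. -/
theorem IDL_im {L N R : ℂ} (h : Adm L N R) (hm : Mk L N R) (h1 : 0 < (N * conj R).re) (h2 : 0 < (L * conj N).re)
    (h3 : ‖L‖ = ‖N - I * R‖) (h4 : ‖R‖ < ‖L - I * N‖) : 0 < N.im := by
  -- notation
  set cg := (L * conj R).re with hcg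
  set sg := (L * conj R).im with hsg
  set cb := (N * conj R).re with hcb
  set sb := (N * conj R).im with hsb
  set ca := (L * conj N).re with hca
  set sa := (L * conj N).im with hsa
  have pL : 0 < normSq L := normSq_pos.2 h.L0
  have pN : 0 < normSq N := normSq_pos.2 h.N0
  have pR : 0 < normSq R := normSq_pos.2 h.R0
  have hsg0 : 0 < sg := by
    have h5 := mul_pos h.imL h.reR
    have h6 : L.re * R.im < 0 := mul_neg_of_pos_of_neg h.reL h.imR
    rw [hsg]
    simp only [mul_im, conj_re, conj_im]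
    linarith
  have hcg0 : 0 ≤ cg := h.gam
  have haL : normSq N + normSq R - normSq L = 2 * sb := by
    have : ‖L‖ ^ 2 = ‖N - I * R‖ ^ 2 := by rw [h3]
    rw [nsq_sub, Complex.sq_norm] at this
    linarith
  have haR : 2 * sa < normSq L + normSq N - normSq R := by
    have := (pow_lt_pow_iff_left₀ (norm_nonneg _) (norm_nonneg _) two_ne_zero).2 h4
    rw [nsq_sub, Complex.sq_norm] at this
    linarith
  have haN : -(2 * sg) < normSq L + normSq R - normSq N := by
    have := (pow_lt_pow_iff_left₀ (norm_nonneg _) (norm_nonneg _) two_ne_zero).2 h.hi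
    rw [nsq_add, Complex.sq_norm] at this
    linarith
  -- `sb > 0`
  have hsb0 : 0 < sb := by
    have hid : 0 < cg * (normSq L + normSq R - normSq N) * sb + cb * (normSq N + normSq R - normSq L) * sg := by
      have e : cg * (normSq L + normSq R - normSq N) * sb + cb * (normSq N + normSq R - normSq L) * sg =
        normSq R * ((L * conj N).im * (normSq N - normSq L) + (L * N * conj R ^ 2).im) := by
        rw [hcg, hsb, hcb, hsg]
        simp only [normSq_apply, pow_two, mul_im, mul_re, conj_re, conj_im]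
        ring
      rw [e, ADM_id hm]
      have h5 : 0 < normSq L * normSq N * (-R.im) := mul_pos (mul_pos pL pN) (by linarith [h.imR])
      have h6 := mul_pos pR h5
      linarith
    have hD : 4 * (cg ^ 2 + sg ^ 2) - (normSq L + normSq R - normSq N) ^ 2 = 4 * (cb ^ 2 + sb ^ 2) - (normSq N + normSq R - normSq L) ^ 2 := by
      rw [hcg, hsg, hcb, hsb]
      simp only [normSq_apply, mul_im, mul_re, conj_re, conj_im]
      ring
    rw [haL] at hid hD
    set aN := normSq L + normSq R - normSq N with haN'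
    by_contra hcon
    push Not at hcon
    have h5 : 0 < sb * (cg * aN + 2 * (cb * sg)) := by nlinarith
    have h6 : cg * aN + 2 * (cb * sg) < 0 := by
      by_contra h7
      push Not at h7
      have := mul_nonpos_of_nonpos_of_nonneg hcon h7
      linarith
    have h7 : 2 * (cb * sg) < cg * (-aN) := by linarith
    have h8 : cg * (-aN) ≤ cg * (2 * sg) := mul_le_mul_of_nonneg_left (by linarith) hcg0
    have h9 : cb * sg < cg * sg := by linarith
    have h10 : cb < cg := lt_of_mul_lt_mul_right h9 hsg0.le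
    have h11 : 0 < -aN := by
      by_contra h12
      push Not at h12
      have h13 := mul_nonpos_of_nonneg_of_nonpos hcg0 h12
      have h14 : 0 < cb * sg := mul_pos h1 hsg0
      linarith
    have h12 : (-aN) ^ 2 < (2 * sg) ^ 2 := pow_lt_pow_left₀ (by linarith) h11.le two_ne_zero
    have h13 : cb ^ 2 < cg ^ 2 := pow_lt_pow_left₀ h10 h1.le two_ne_zero
    nlinarith
  -- the case `sa ≤ 0`
  rcases le_or_gt sa 0 with hsa0 | hsa0
  · by_contra hcon
    push Not at hcon
    have h5 : 0 < N.re := by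
      by_contra h6
      push Not at h6
      have h7 : L.re * N.re ≤ 0 := mul_nonpos_of_nonneg_of_nonpos h.reL.le h6
      have h8 : L.im * N.im ≤ 0 := mul_nonpos_of_nonneg_of_nonpos h.imL.le hcon
      rw [hca] at h2
      simp only [mul_re, conj_re, conj_im] at h2
      linarith
    have h6 : 0 < L.im * N.re := mul_pos h.imL h5
    have h7 : L.re * N.im ≤ 0 := mul_nonpos_of_nonneg_of_nonpos h.reL.le hcon
    rw [hsa] at hsa0
    simp only [mul_im, conj_re, conj_im] at hsa0
    linarith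
  · set aR := normSq L + normSq N - normSq R with haR'
    have hD : 4 * (ca ^ 2 + sa ^ 2) - aR ^ 2 = 4 * (cb ^ 2 + sb ^ 2) - (normSq N + normSq R - normSq L) ^ 2 := by
      rw [hca, hsa, hcb, hsb, haR']
      simp only [normSq_apply, mul_im, mul_re, conj_re, conj_im]
      ring
    rw [haL] at hD
    have h5 : (2 * sa) ^ 2 < aR ^ 2 := pow_lt_pow_left₀ haR (by positivity) two_ne_zero
    have h6 : cb ^ 2 < ca ^ 2 := by nlinarith
    have h7 : cb < ca := lt_of_pow_lt_pow_left₀ 2 h2.le h6
    have h8 : 2 * (cb * sa) < ca * aR := by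
      have h9 : cb * sa < ca * sa := mul_lt_mul_of_pos_right h7 hsa0
      have h10 : ca * (2 * sa) < ca * aR := mul_lt_mul_of_pos_left haR h2
      linarith
    have hid : ca * sb * aR - cb * sa * (normSq N + normSq R - normSq L) = normSq N * (normSq L * normSq R * N.im) := by
      have e1 : (L * R * conj N ^ 2).im + (normSq R - normSq L) * sg = -(normSq L * normSq R * N.im) := by
        have h1' : conj L ^ 2 + conj N ^ 2 + conj R ^ 2 = conj L * conj N * conj R := by
          have := congrArg (starRingEnd ℂ) hm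
          simpa only [map_add, map_pow, map_mul] using this
        have h2' : L * R * (conj L ^ 2 + conj N ^ 2 + conj R ^ 2) = L * R * (conj L * conj N * conj R) := by rw [h1']
        have h3' := congrArg Complex.im h2'
        rw [hsg]
        simp only [normSq_apply, pow_two, mul_im, mul_re, add_re, add_im, conj_re, conj_im] at h3' ⊢
        linarith
      have e2 : ca * sb * aR - cb * sa * (normSq N + normSq R - normSq L) = - (normSq N * ((L * R * conj N ^ 2).im + (normSq R - normSq L) * sg)) := by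
        rw [hca, hsa, hcb, hsb, haR', hsg]
        simp only [normSq_apply, pow_two, mul_im, mul_re, conj_re, conj_im]
        ring
      rw [e2, e1]
      ring
    rw [haL] at hid
    have h9 : 0 < normSq N * (normSq L * normSq R * N.im) := by
      rw [← hid]
      have : 0 < sb * (ca * aR - 2 * (cb * sa)) := mul_pos hsb0 (by linarith)
      linarith
    have h10 := (mul_pos_iff_of_pos_left pN).1 h9
    exact (mul_pos_iff_of_pos_left (mul_pos pL pR)).1 h10

/-- the child of an ideal top triple: all four conditions are strict. -/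
theorem IDL_child {L N R : ℂ} (h : Adm L N R) (hm : Mk L N R) (h1 : 0 < (N * conj R).re) (h0 : 0 < N.im)
    (h3 : ‖L‖ = ‖N - I * R‖) :
    0 < ((N * R - L) * conj R).re ∧ 0 < (N * conj (N * R - L)).re ∧ ‖N‖ < ‖(N * R - L) - I * R‖ ∧ ‖R‖ < ‖N - I * (N * R - L)‖ := by
  have hreR := h.reR
  have himR := h.imR
  have pN : 0 < normSq N := normSq_pos.2 h.N0
  have pR : 0 < normSq R := normSq_pos.2 h.R0
  have hreN : 0 < N.re := by
    have h4 := h1
    simp only [mul_re, conj_re, conj_im] at h4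
    by_contra hcon
    push Not at hcon
    have h6 : N.re * R.re ≤ 0 := mul_nonpos_of_nonpos_of_nonneg hcon hreR.le
    have h7 : N.im * R.im < 0 := mul_neg_of_pos_of_neg h0 himR
    linarith
  have hsb : 0 < (N * conj R).im := by
    simp only [mul_im, conj_re, conj_im]
    have h6 : 0 < N.im * R.re := mul_pos h0 hreR
    have h7 : N.re * R.im < 0 := mul_neg_of_pos_of_neg hreN himR
    linarith
  have hW0 : N - I * R ≠ 0 := by
    rw [← norm_pos_iff, ← h3]
    exact norm_pos_iff.2 h.L0
  obtain ⟨e, he⟩ : ∃ e : ℂ, L = e * (N - I * R) := ⟨L / (N - I * R), by field_simp⟩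
  have hen : ‖e‖ = 1 := by
    have h5 : ‖L‖ = ‖e‖ * ‖N - I * R‖ := by rw [he, norm_mul]
    rw [h3] at h5
    have h6 : 0 < ‖N - I * R‖ := norm_pos_iff.2 hW0
    have h7 : (‖e‖ - 1) * ‖N - I * R‖ = 0 := by linarith
    rcases mul_eq_zero.1 h7 with h8 | h8
    · linarith
    · exact absurd h8 h6.ne'
  have hee : e * conj e = 1 := by
    rw [Complex.mul_conj, Complex.normSq_eq_norm_sq, hen]
    norm_num
  have he0 : e ≠ 0 := by
    intro h5
    rw [h5, norm_zero] at hen
    norm_num at hen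
  set K := N * R - L with hK
  have hLK : L * K = (N - I * R) * (N + I * R) := by
    unfold Mk at hm
    rw [hK]
    linear_combination -hm + R ^ 2 * I_sq
  have hKe : K = conj e * (N + I * R) := by
    rw [he] at hLK
    have h5 : e * K = N + I * R := by
      apply mul_left_cancel₀ hW0
      linear_combination hLK
    calc K = (e * conj e) * K := by rw [hee, one_mul]
      _ = conj e * (e * K) := by ring
      _ = conj e * (N + I * R) := by rw [h5]
  -- the relation
  have hrel : N * R = 2 * (e.re : ℂ) * N + 2 * (e.im : ℂ) * R := by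
    have h5 : N * R = L + K := by rw [hK]; ring
    have h6 : e + conj e = 2 * (e.re : ℂ) := by
      rw [Complex.add_conj]; push_cast; ring
    have h7 : e - conj e = 2 * (e.im : ℂ) * I := by
      rw [Complex.sub_conj]; push_cast; ring
    rw [h5, he, hKe]
    linear_combination N * h6 - I * R * h7 + (-2 * (e.im : ℂ) * R) * I_sq
  set c := e.re with hc
  set s := e.im with hs
  have hcs : c ^ 2 + s ^ 2 = 1 := by
    have h5 : normSq e = 1 := by rw [Complex.normSq_eq_norm_sq, hen]; norm_num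
    rw [normSq_apply] at h5
    nlinarith
  -- real and imaginary parts of `1 = 2c/R + 2s/N`
  have hre : normSq N * normSq R = 2 * c * (normSq N * R.re) + 2 * s * (normSq R * N.re) := by
    have h5 : N * R * (conj N * conj R) = (2 * (c : ℂ) * N + 2 * (s : ℂ) * R) * (conj N * conj R) := by rw [hrel]
    have h6 := congrArg Complex.re h5
    simp only [normSq_apply, mul_re, mul_im, add_re, add_im, conj_re, conj_im, ofReal_re, ofReal_im, Complex.re_ofNat, Complex.im_ofNat] at h6 ⊢
    linarith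
  have him : c * (normSq N * R.im) + s * (normSq R * N.im) = 0 := by
    have h5 : N * R * (conj N * conj R) = (2 * (c : ℂ) * N + 2 * (s : ℂ) * R) * (conj N * conj R) := by rw [hrel]
    have h6 := congrArg Complex.im h5
    simp only [normSq_apply, mul_re, mul_im, add_re, add_im, conj_re, conj_im, ofReal_re, ofReal_im, Complex.re_ofNat, Complex.im_ofNat] at h6 ⊢
    linarith
  have q1 : 0 < normSq N * R.re := mul_pos pN hreR
  have q2 : 0 < normSq R * N.re := mul_pos pR hreN
  have q3 : 0 < normSq N * (-R.im) := mul_pos pN (by linarith)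
  have q4 : 0 < normSq R * N.im := mul_pos pR h0
  have hs0 : 0 < s := by
    by_contra hcon
    push Not at hcon
    have h5 : s * (normSq R * N.im) ≤ 0 := mul_nonpos_of_nonpos_of_nonneg hcon q4.le
    have h6 : c ≤ 0 := by
      by_contra h7
      push Not at h7
      have := mul_pos h7 q3
      nlinarith
    have h7 : c * (normSq N * R.re) ≤ 0 := mul_nonpos_of_nonpos_of_nonneg h6 q1.le
    have h8 : s * (normSq R * N.re) ≤ 0 := mul_nonpos_of_nonpos_of_nonneg hcon q2.le
    have h9 := mul_pos pN pR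
    nlinarith
  have hc0 : 0 < c := by
    by_contra hcon
    push Not at hcon
    have h5 : c * (normSq N * (-R.im)) ≤ 0 := mul_nonpos_of_nonpos_of_nonneg hcon q3.le
    have h6 := mul_pos hs0 q4
    nlinarith
  have hc1 : c < 1 := by nlinarith
  have hs1 : s < 1 := by nlinarith
  set x := (N * conj R).re with hx
  set y := (N * conj R).im with hy
  have f1 : (K * conj R).re = c * x + s * (y + normSq R) := by
    rw [hKe, hx, hy, hc, hs]
    simp only [normSq_apply, mul_re, mul_im, add_re, add_im, conj_re, conj_im, I_re, I_im]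
    ring
  have f2 : (N * conj K).re = c * (normSq N + y) + s * x := by
    rw [hKe, hx, hy, hc, hs]
    simp only [map_mul, map_add, Complex.conj_conj, conj_I, normSq_apply, mul_re, mul_im, add_re, add_im, neg_re, neg_im, conj_re, conj_im, I_re, I_im]
    ring
  have f3 : (K * conj R).im = c * (y + normSq R) - s * x := by
    rw [hKe, hx, hy, hc, hs]
    simp only [normSq_apply, mul_re, mul_im, add_re, add_im, conj_re, conj_im, I_re, I_im]
    ring
  have f4 : (N * conj K).im = s * (normSq N + y) - c * x := by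
    rw [hKe, hx, hy, hc, hs]
    simp only [map_mul, map_add, Complex.conj_conj, conj_I, normSq_apply, mul_re, mul_im, add_re, add_im, neg_re, neg_im, conj_re, conj_im, I_re, I_im]
    ring
  have f5 : normSq K = normSq N + normSq R + 2 * y := by
    have h5 : ‖K‖ = ‖N + I * R‖ := by
      rw [hKe, norm_mul, Complex.norm_conj, hen, one_mul]
    have h6 : ‖K‖ ^ 2 = ‖N + I * R‖ ^ 2 := by rw [h5]
    rw [nsq_add, Complex.sq_norm] at h6
    exact h6
  refine ⟨?_, ?_, ?_, ?_⟩
  · rw [f1]
    have := mul_pos hc0 h1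
    have := mul_pos hs0 (add_pos hsb pR)
    linarith
  · rw [f2]
    have := mul_pos hc0 (add_pos pN hsb)
    have := mul_pos hs0 h1
    linarith
  · rw [← pow_lt_pow_iff_left₀ (norm_nonneg _) (norm_nonneg _) two_ne_zero, nsq_sub, Complex.sq_norm, f5, f3]
    have h5 := mul_pos hs0 h1
    have h6 := mul_pos (sub_pos.2 hc1) (add_pos hsb pR)
    nlinarith
  · rw [← pow_lt_pow_iff_left₀ (norm_nonneg _) (norm_nonneg _) two_ne_zero, nsq_sub, Complex.sq_norm, f5, f4]
    have h5 := mul_pos hc0 h1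
    have h6 := mul_pos (sub_pos.2 hs1) (add_pos pN hsb)
    nlinarith

theorem nrm_conj (X Y : ℂ) : ‖conj X - I * conj Y‖ = ‖Y - I * X‖ := by
  have : conj X - I * conj Y = conj (I * (Y - I * X)) := by
    simp only [map_mul, map_sub, conj_I]
    linear_combination (conj X) * I_sq
  rw [this, Complex.norm_conj, norm_mul, norm_I, one_mul]

theorem IDR_im {L N R : ℂ} (h : Adm L N R) (hm : Mk L N R) (h1 : 0 < (N * conj R).re) (h2 : 0 < (L * conj N).re)
    (h3 : ‖R‖ = ‖L - I * N‖) (h4 : ‖L‖ < ‖N - I * R‖) : N.im < 0 := by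
  have h5 := IDL_im (Adm_conj h) (Mk_conj hm) (by
    simp only [mul_re, conj_re, conj_im] at h2 ⊢
    linarith) (by
    simp only [mul_re, conj_re, conj_im] at h1 ⊢
    linarith) (by rw [nrm_conj, Complex.norm_conj]; exact h3) (by rw [nrm_conj, Complex.norm_conj]; exact h4)
  rw [conj_im] at h5
  linarith

theorem IDR_child {L N R : ℂ} (h : Adm L N R) (hm : Mk L N R) (h2 : 0 < (L * conj N).re) (h0 : N.im < 0)
    (h3 : ‖R‖ = ‖L - I * N‖) :
    0 < ((L * N - R) * conj N).re ∧ 0 < (L * conj (L * N - R)).re ∧ ‖L‖ < ‖(L * N - R) - I * N‖ ∧ ‖N‖ < ‖L - I * (L * N - R)‖ := by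
  obtain ⟨g1, g2, g3, g4⟩ := IDL_child (Adm_conj h) (Mk_conj hm) (by
    simp only [mul_re, conj_re, conj_im] at h2 ⊢
    linarith) (by rw [conj_im]; linarith) (by rw [nrm_conj, Complex.norm_conj]; exact h3)
  have e : conj N * conj L - conj R = conj (L * N - R) := by
    rw [map_sub, map_mul, mul_comm]
  rw [e] at g1 g2 g3 g4
  refine ⟨?_, ?_, ?_, ?_⟩
  · rw [Complex.conj_conj, mul_comm] at g2
    exact g2
  · rw [Complex.conj_conj, mul_comm] at g1
    exact g1
  · rw [nrm_conj, Complex.norm_conj] at g4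
    exact g4
  · rw [nrm_conj, Complex.norm_conj] at g3
    exact g3

/-- **TT is open.** -/
theorem TT_open : IsOpen TT := by
  rw [isOpen_iff_mem_nhds]
  rintro z ⟨w, hz⟩
  obtain ⟨dL, dN, dR⟩ := Diff_Tr w
  have cL := dL.continuous
  have cN := dN.continuous
  have cR := dR.continuous
  have had := ADM w z hz.1
  have hm := Mk_Tr w z
  have hCh : ∀ᶠ y in 𝓝 z, Ch w y := (CHO w).mem_nhds hz.1
  have o2 : IsOpen {z : ℂ | 0 < (Nf w z * conj (Rf w z)).re} :=
    isOpen_lt continuous_const (continuous_re.comp (cN.mul (Complex.continuous_conj.comp cR)))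
  have o3 : IsOpen {z : ℂ | 0 < (Lf w z * conj (Nf w z)).re} :=
    isOpen_lt continuous_const (continuous_re.comp (cL.mul (Complex.continuous_conj.comp cN)))
  have e2 : ∀ᶠ y in 𝓝 z, 0 < (Nf w y * conj (Rf w y)).re := o2.mem_nhds hz.2.reNR
  have e3 : ∀ᶠ y in 𝓝 z, 0 < (Lf w y * conj (Nf w y)).re := o3.mem_nhds hz.2.reLN
  have oL : IsOpen {z : ℂ | ‖Lf w z‖ < ‖Nf w z - I * Rf w z‖} := isOpen_lt cL.norm (cN.sub (continuous_const.mul cR)).norm
  have oR : IsOpen {z : ℂ | ‖Rf w z‖ < ‖Lf w z - I * Nf w z‖} := isOpen_lt cR.norm (cL.sub (continuous_const.mul cN)).norm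
  rcases hz.2.thL.lt_or_eq with hL | hL
  · have eL : ∀ᶠ y in 𝓝 z, ‖Lf w y‖ < ‖Nf w y - I * Rf w y‖ := oL.mem_nhds hL
    rcases hz.2.thR.lt_or_eq with hR | hR
    · have eR : ∀ᶠ y in 𝓝 z, ‖Rf w y‖ < ‖Lf w y - I * Nf w y‖ := oR.mem_nhds hR
      filter_upwards [hCh, e2, e3, eL, eR] with y h1 h2 h3 h4 h5
      exact ⟨w, h1, h2, h3, h4.le, h5.le, Or.inl h4⟩
    · -- ideal on the right
      have him := IDR_im had hm hz.2.reNR hz.2.reLN hR hL
      obtain ⟨g1, g2, g3, g4⟩ := IDR_child had hm hz.2.reLN him hR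
      have cK : Continuous fun y => Lf w y * Nf w y - Rf w y := (cL.mul cN).sub cR
      have u0 : IsOpen {y : ℂ | (Nf w y).im < 0} := isOpen_lt (continuous_im.comp cN) continuous_const
      have u1 : IsOpen {y : ℂ | 0 < ((Lf w y * Nf w y - Rf w y) * conj (Nf w y)).re} :=
        isOpen_lt continuous_const (continuous_re.comp (cK.mul (Complex.continuous_conj.comp cN)))
      have u2 : IsOpen {y : ℂ | 0 < (Lf w y * conj (Lf w y * Nf w y - Rf w y)).re} :=
        isOpen_lt continuous_const (continuous_re.comp (cL.mul (Complex.continuous_conj.comp cK)))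
      have u3 : IsOpen {y : ℂ | ‖Lf w y‖ < ‖(Lf w y * Nf w y - Rf w y) - I * Nf w y‖} :=
        isOpen_lt cL.norm (cK.sub (continuous_const.mul cN)).norm
      have u4 : IsOpen {y : ℂ | ‖Nf w y‖ < ‖Lf w y - I * (Lf w y * Nf w y - Rf w y)‖} :=
        isOpen_lt cN.norm (cL.sub (continuous_const.mul cK)).norm
      have v0 : ∀ᶠ y in 𝓝 z, (Nf w y).im < 0 := u0.mem_nhds him
      have v1 : ∀ᶠ y in 𝓝 z, 0 < ((Lf w y * Nf w y - Rf w y) * conj (Nf w y)).re := u1.mem_nhds g1
      have v2 : ∀ᶠ y in 𝓝 z, 0 < (Lf w y * conj (Lf w y * Nf w y - Rf w y)).re := u2.mem_nhds g2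
      have v3 : ∀ᶠ y in 𝓝 z, ‖Lf w y‖ < ‖(Lf w y * Nf w y - Rf w y) - I * Nf w y‖ := u3.mem_nhds g3
      have v4 : ∀ᶠ y in 𝓝 z, ‖Nf w y‖ < ‖Lf w y - I * (Lf w y * Nf w y - Rf w y)‖ := u4.mem_nhds g4
      filter_upwards [hCh, e2, e3, eL, v0, v1, v2, v3, v4] with y h1 h2 h3 h4 w0 w1 w2 w3 w4
      rcases le_or_gt ‖Rf w y‖ ‖Lf w y - I * Nf w y‖ with h5 | h5
      · exact ⟨w, h1, h2, h3, h4.le, h5, Or.inl h4⟩
      · exact ⟨false :: w, ⟨h1, ⟨w0, h3, h5⟩⟩, ⟨w1, w2, w3.le, w4.le, Or.inl w3⟩⟩
  · -- ideal on the left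
    have hR : ‖Rf w z‖ < ‖Lf w z - I * Nf w z‖ := by
      rcases hz.2.ne with h | h
      · exact absurd hL h.ne
      · exact h
    have eR : ∀ᶠ y in 𝓝 z, ‖Rf w y‖ < ‖Lf w y - I * Nf w y‖ := oR.mem_nhds hR
    have him := IDL_im had hm hz.2.reNR hz.2.reLN hL hR
    obtain ⟨g1, g2, g3, g4⟩ := IDL_child had hm hz.2.reNR him hL
    have cK : Continuous fun y => Nf w y * Rf w y - Lf w y := (cN.mul cR).sub cL
    have u0 : IsOpen {y : ℂ | 0 < (Nf w y).im} := isOpen_lt continuous_const (continuous_im.comp cN)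
    have u1 : IsOpen {y : ℂ | 0 < ((Nf w y * Rf w y - Lf w y) * conj (Rf w y)).re} :=
      isOpen_lt continuous_const (continuous_re.comp (cK.mul (Complex.continuous_conj.comp cR)))
    have u2 : IsOpen {y : ℂ | 0 < (Nf w y * conj (Nf w y * Rf w y - Lf w y)).re} :=
      isOpen_lt continuous_const (continuous_re.comp (cN.mul (Complex.continuous_conj.comp cK)))
    have u3 : IsOpen {y : ℂ | ‖Nf w y‖ < ‖(Nf w y * Rf w y - Lf w y) - I * Rf w y‖} :=
      isOpen_lt cN.norm (cK.sub (continuous_const.mul cR)).norm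
    have u4 : IsOpen {y : ℂ | ‖Rf w y‖ < ‖Nf w y - I * (Nf w y * Rf w y - Lf w y)‖} :=
      isOpen_lt cR.norm (cN.sub (continuous_const.mul cK)).norm
    have v0 : ∀ᶠ y in 𝓝 z, 0 < (Nf w y).im := u0.mem_nhds him
    have v1 : ∀ᶠ y in 𝓝 z, 0 < ((Nf w y * Rf w y - Lf w y) * conj (Rf w y)).re := u1.mem_nhds g1
    have v2 : ∀ᶠ y in 𝓝 z, 0 < (Nf w y * conj (Nf w y * Rf w y - Lf w y)).re := u2.mem_nhds g2
    have v3 : ∀ᶠ y in 𝓝 z, ‖Nf w y‖ < ‖(Nf w y * Rf w y - Lf w y) - I * Rf w y‖ := u3.mem_nhds g3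
    have v4 : ∀ᶠ y in 𝓝 z, ‖Rf w y‖ < ‖Nf w y - I * (Nf w y * Rf w y - Lf w y)‖ := u4.mem_nhds g4
    filter_upwards [hCh, e2, e3, eR, v0, v1, v2, v3, v4] with y h1 h2 h3 h4 w0 w1 w2 w3 w4
    rcases le_or_gt ‖Lf w y‖ ‖Nf w y - I * Rf w y‖ with h5 | h5
    · exact ⟨w, h1, h2, h3, h5, h4.le, Or.inr h4⟩
    · exact ⟨true :: w, ⟨h1, ⟨w0, h2, h5⟩⟩, ⟨w1, w2, w3.le, w4.le, Or.inl w3⟩⟩

/-- **CLOPEN** (from `CLS` only). -/
theorem CLOPEN (hCLS : CLS_stmt) : ∀ B : Set ℂ, B ⊆ TT → IsOpen B → closure B ∩ TT ⊆ B →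
    (∀ z ∈ closure B, z ∈ Qd → ‖z‖ ≠ 2) → B = ∅ := CLOPEN8 ADM hCLS

end Pool.Agent.M4
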